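import Pool.Agent.Lib.Helper43.KK.Compact

/-!
# Bounded families and the bounding number
-/

set_option autoImplicit false

universe u v w

namespace Pool.Agent.Helper43.KK

open Set Ordinal Cardinal

variable {κ : Cardinal.{u}}

/-- A large subset of a cardinal is enumerated in increasing order by the cardinal. -/
theorem exists_enumerates {a : Set (Idx κ)} (ha : a ∈ Large κ) : ∃ f, Enumerates f a := by
  have h1 : Ordinal.type (α := a) (· < ·) = κ.ord := by
    apply le_antisymm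
    · have h2 : Ordinal.type (α := a) (· < ·) ≤ Ordinal.type (α := Idx κ) (· < ·) :=
        Ordinal.type_le_iff'.2 ⟨(OrderEmbedding.subtype _).ltEmbedding⟩
      rwa [Ordinal.type_toType] at h2
    · rw [Cardinal.ord_le, Ordinal.card_type]
      exact (show #a = κ from ha).ge
  have h2 : Ordinal.type (α := Idx κ) (· < ·) = Ordinal.type (α := a) (· < ·) := by
    rw [h1, Ordinal.type_toType]
  obtain ⟨e⟩ := Ordinal.type_eq.1 h2
  refine ⟨fun ξ => (e ξ : Idx κ), ?_, ?_⟩
  · intro ξ η hlt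
    exact e.map_rel_iff.2 hlt
  · ext x
    constructor
    · rintro ⟨ξ, rfl⟩
      exact (e ξ).2
    · intro hx
      exact ⟨e.symm ⟨x, hx⟩, by simp⟩

theorem large_of_strictMono {f : Idx κ → Idx κ} (hf : StrictMono f) : Set.range f ∈ Large κ := by
  have : #(Set.range f) = #(Idx κ) := Cardinal.mk_range_eq f hf.injective
  simpa [Large] using this

/-- Bounded sets of indices. -/
theorem exists_ub (hreg : κ.IsRegular) {A : Set (Idx κ)} (hA : #A < κ) :
    ∃ x : Idx κ, ∀ a ∈ A, a < x := by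
  have h1 : ⨆ ξ : A, Order.succ (num ξ.1) < κ.ord := by
    apply Ordinal.iSup_lt_of_lt_cof
    · rw [hreg.cof_ord]
      exact hA
    · intro ξ
      exact (Cardinal.isSuccLimit_ord hreg.aleph0_le).succ_lt (num_lt _)
  refine ⟨idx _ h1, fun a ha => ?_⟩
  rw [← num_lt_num, num_idx]
  exact (Order.lt_succ _).trans_le (Ordinal.le_iSup (fun ξ : A => Order.succ (num ξ.1)) ⟨a, ha⟩)

theorem mk_Iio_lt (ξ : Idx κ) : #(Set.Iio ξ) < κ := by
  have h1 : Set.Iio ξ = {η : Idx κ | num η < num ξ} := by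
    ext η
    simp
  rw [h1]
  exact (card_num_lt _).trans_lt (Cardinal.lt_ord.1 (num_lt ξ))

theorem mk_Iic_lt (hκ : ℵ₀ ≤ κ) (ξ : Idx κ) : #(Set.Iic ξ) < κ := by
  have h1 : Set.Iic ξ ⊆ {η : Idx κ | num η < Order.succ (num ξ)} := by
    intro η hη
    exact Order.lt_succ_of_le (num_le_num.2 hη)
  refine (Cardinal.mk_le_mk_of_subset h1).trans_lt ((card_num_lt _).trans_lt ?_)
  rw [← Cardinal.lt_ord]
  exact (Cardinal.isSuccLimit_ord hκ).succ_lt (num_lt ξ)

/-- Families of size at most `κ` are bounded. -/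
theorem bdd_of_card_le (hreg : κ.IsRegular) (A : Set (Set (Idx κ))) (hA : A ⊆ Large κ)
    (hc : #A ≤ κ) : Bdd A := by
  have hκ : ℵ₀ ≤ κ := hreg.aleph0_le
  rcases A.eq_empty_or_nonempty with rfl | hne
  · have h1 : (Set.univ : Set (Idx κ)) ∈ Large κ := by simp [Large]
    exact ⟨Set.univ, h1, by simp⟩
  -- enumerate the family
  obtain ⟨a, ha⟩ : ∃ a : Idx κ → Set (Idx κ), Set.range a = A := by
    have : Nonempty A := hne.to_subtype
    have h1 : #A ≤ #(Idx κ) := by simpa using hc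
    obtain ⟨g⟩ := Cardinal.le_def _ _ |>.1 h1
    refine ⟨fun i => (Function.invFun g i : A), ?_⟩
    ext x
    constructor
    · rintro ⟨i, rfl⟩
      exact (Function.invFun g i).2
    · intro hx
      exact ⟨g ⟨x, hx⟩, by simp [Function.leftInverse_invFun g.injective ⟨x, hx⟩]⟩
  have hf : ∀ i, ∃ f, Enumerates f (a i) := fun i => exists_enumerates (hA (by
    rw [← ha]
    exact mem_range_self i))
  choose f hf using hf
  -- the dominating function
  have hub : ∀ (ξ : Idx κ) (g : ∀ η : Idx κ, η < ξ → Idx κ), ∃ x : Idx κ,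
      (∀ i ≤ ξ, f i ξ < x) ∧ ∀ η (h : η < ξ), g η h < x := by
    intro ξ g
    obtain ⟨x, hx⟩ := exists_ub hreg (A := (fun i => f i ξ) '' Set.Iic ξ)
      (Cardinal.mk_image_le.trans_lt (mk_Iic_lt hκ ξ))
    obtain ⟨y, hy⟩ := exists_ub hreg (A := Set.range (fun η : Set.Iio ξ => g η.1 η.2))
      (Cardinal.mk_range_le.trans_lt (mk_Iio_lt ξ))
    refine ⟨max x y, fun i hi => (hx _ ⟨i, hi, rfl⟩).trans_le (le_max_left _ _),
      fun η h => (hy _ ⟨⟨η, h⟩, rfl⟩).trans_le (le_max_right _ _)⟩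
  choose G hG1 hG2 using hub
  let g : Idx κ → Idx κ := WellFounded.fix (wellFounded_lt (α := Idx κ)) G
  have hg : ∀ ξ, g ξ = G ξ (fun η _ => g η) := fun ξ => WellFounded.fix_eq _ _ _
  have hmono : StrictMono g := by
    intro η ξ h
    rw [hg ξ]
    exact hG2 ξ (fun η _ => g η) η h
  refine ⟨Set.range g, large_of_strictMono hmono, ?_⟩
  intro x hx
  rw [← ha] at hx
  obtain ⟨i, rfl⟩ := hx
  refine ⟨f i, g, hf i, ⟨hmono, rfl⟩, ?_⟩
  have h1 : {ξ | g ξ < f i ξ} ⊆ Set.Iio i := by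
    intro ξ hξ
    by_contra hn
    have hn' : i ≤ ξ := not_lt.1 hn
    have h2 := hG1 ξ (fun η _ => g η) i hn'
    rw [← hg] at h2
    exact absurd hξ (not_lt.2 h2.le)
  exact (Cardinal.mk_le_mk_of_subset h1).trans_lt (mk_Iio_lt i)

/-- The bounding number when there is an unbounded family of size `κ⁺`. -/
theorem bNumber_eq (hreg : κ.IsRegular) {X : Set (Set (Idx κ))} (hX : X ⊆ Large κ)
    (hunb : ¬ Bdd X) (hc : #X ≤ Order.succ κ) : bNumber κ = Order.succ κ ∧ #X = Order.succ κ := by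
  have h1 : ∀ c ∈ {c | ∃ A ⊆ Large κ, ¬ Bdd A ∧ #A = c}, Order.succ κ ≤ c := by
    rintro c ⟨A, hA, hA2, rfl⟩
    rw [Order.succ_le_iff]
    by_contra hn
    exact hA2 (bdd_of_card_le hreg A hA (not_lt.1 hn))
  have h2 : #X = Order.succ κ := le_antisymm hc (h1 _ ⟨X, hX, hunb, rfl⟩)
  refine ⟨le_antisymm ?_ ?_, h2⟩
  · rw [← h2]
    exact csInf_le' ⟨X, hX, hunb, rfl⟩
  · exact le_csInf ⟨_, X, hX, hunb, rfl⟩ h1

/-- A rank function gives a scale. -/
theorem isScale_of_rank (hreg : κ.IsRegular) (X : Set (Set (Idx κ))) (hX : X ⊆ Large κ)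
    (hunb : ¬ Bdd X) (g : Set (Idx κ) → Ordinal.{u}) (hg : ∀ x ∈ X, g x < (Order.succ κ).ord)
    (hfib : ∀ γ, #{x // x ∈ X ∧ g x = γ} ≤ κ)
    (hmono : ∀ x ∈ X, ∀ y ∈ X, g x ≤ g y → LeStar x y) : IsScale κ X := by
  have hκ : ℵ₀ ≤ κ := hreg.aleph0_le
  have hκs : ℵ₀ ≤ Order.succ κ := hκ.trans (Order.le_succ κ)
  -- injections of the fibres
  have hi : ∀ γ, ∃ i : {x // x ∈ X ∧ g x = γ} → Idx κ, Function.Injective i := by
    intro γ
    have h1 : #{x // x ∈ X ∧ g x = γ} ≤ #(Idx κ) := by simpa using hfib γ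
    obtain ⟨i⟩ := (Cardinal.le_def _ _).1 h1
    exact ⟨i, i.injective⟩
  choose i hi using hi
  let j : X → Ordinal.{u} := fun x => κ.ord * g x.1 + num (i (g x.1) ⟨x.1, x.2, rfl⟩)
  have hjlt : ∀ x y : X, g x.1 < g y.1 → j x < j y := by
    intro x y h
    calc j x < κ.ord * g x.1 + κ.ord := (add_lt_add_iff_left _).2 (num_lt _)
      _ = κ.ord * Order.succ (g x.1) := by rw [Ordinal.mul_succ]
      _ ≤ κ.ord * g y.1 := by
        gcongr
        exact Order.succ_le_of_lt h
      _ ≤ j y := le_self_add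
  have hjinj : Function.Injective j := by
    intro x y h
    have h1 : g x.1 = g y.1 := by
      rcases lt_trichotomy (g x.1) (g y.1) with h2 | h2 | h2
      · exact absurd h (hjlt x y h2).ne
      · exact h2
      · exact absurd h (hjlt y x h2).ne'
    have h2 : ∀ γ (hx : g x.1 = γ) (hy : g y.1 = γ), κ.ord * γ + num (i γ ⟨x.1, x.2, hx⟩) =
        κ.ord * γ + num (i γ ⟨y.1, y.2, hy⟩) → x = y := by
      intro γ hx hy h3
      have h4 := num_inj.1 (add_left_cancel h3)
      have h5 := hi γ h4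
      exact Subtype.ext (Subtype.mk.inj h5)
    apply h2 (g y.1) h1 rfl
    have h3 : j x = κ.ord * g y.1 + num (i (g y.1) ⟨x.1, x.2, h1⟩) := by
      have : ∀ γ (hx : g x.1 = γ), j x = κ.ord * γ + num (i γ ⟨x.1, x.2, hx⟩) := by
        rintro γ rfl
        rfl
      exact this _ h1
    rw [← h3, h]
  have hjle : ∀ x y : X, j x < j y → g x.1 ≤ g y.1 := by
    intro x y h
    by_contra hn
    exact absurd h (not_lt.2 (hjlt y x (not_le.1 hn)).le)
  have hjord : ∀ x : X, j x < (Order.succ κ).ord := by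
    intro x
    have h1 : κ.ord < (Order.succ κ).ord := Cardinal.ord_lt_ord.2 (Order.lt_succ κ)
    refine Ordinal.isPrincipal_add_ord hκs ?_ ((num_lt _).trans h1)
    exact Ordinal.isPrincipal_mul_ord hκs h1 (hg x.1 x.2)
  -- transport to `Idx (succ κ)`
  let J : X → Idx (Order.succ κ) := fun x => idx (j x) (hjord x)
  have hJinj : Function.Injective J := by
    intro x y h
    apply hjinj
    have : num (J x) = num (J y) := by rw [h]
    rwa [num_idx, num_idx] at this
  have hXc : #X ≤ Order.succ κ := by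
    have := Cardinal.mk_le_of_injective hJinj
    simpa using this
  obtain ⟨hb, hXe⟩ := bNumber_eq hreg hX hunb hXc
  have hJr : Set.range J ∈ Large (Order.succ κ) := by
    have : #(Set.range J) = #X := Cardinal.mk_range_eq J hJinj
    rw [Large, mem_ofPred_eq, this, hXe]
  obtain ⟨f, hf1, hf2⟩ := exists_enumerates hJr
  have hpre : ∀ α, ∃ x : X, J x = f α := by
    intro α
    have : f α ∈ Set.range J := by
      rw [← hf2]
      exact mem_range_self α
    exact this
  choose x hx using hpre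
  refine ⟨hunb, ?_⟩
  rw [hb]
  refine ⟨fun α => (x α : Set (Idx κ)), fun α => hX (x α).2, ?_, ?_⟩
  · intro α β hαβ
    apply hmono _ (x α).2 _ (x β).2
    apply hjle
    have h1 := hf1 hαβ
    rw [← hx, ← hx, ← num_lt_num, num_idx, num_idx] at h1
    exact h1
  · ext y
    constructor
    · intro hy
      have : J ⟨y, hy⟩ ∈ Set.range f := by
        rw [hf2]
        exact mem_range_self _
      obtain ⟨α, hα⟩ := this
      refine ⟨α, ?_⟩
      rw [← hx] at hα
      have := hJinj hα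
      simp only
      rw [this]
    · rintro ⟨α, rfl⟩
      exact (x α).2

end Pool.Agent.Helper43.KK
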