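import Pool.Agent.Lib.Helper43.KK.FromVL

/-!
# The closed sets of diagrams
-/

set_option autoImplicit false

universe u v w

namespace Pool.Agent.Helper43.KK

open Set Ordinal Cardinal

/-! ## Cardinalities -/

theorem mk_frst_le (A : Type u) : #(Frst A) ≤ max ℵ₀ #A := by
  choose k σ a h using fun t : Frst A => t.exists_fin
  have hinj : Function.Injective (fun t : Frst A =>
      ((⟨k t, σ t⟩, List.ofFn (a t)) : (Σ k, Frst (Fin k)) × List A)) := by
    intro t t' htt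
    simp only [Prod.mk.injEq] at htt
    obtain ⟨h1, h2⟩ := htt
    have h3 : ∀ (k1 k2 : ℕ) (s1 : Frst (Fin k1)) (s2 : Frst (Fin k2)) (a1 : Fin k1 → A)
        (a2 : Fin k2 → A), (⟨k1, s1⟩ : Σ k, Frst (Fin k)) = ⟨k2, s2⟩ →
        List.ofFn a1 = List.ofFn a2 → s1.map a1 = s2.map a2 := by
      intro k1 k2 s1 s2 a1 a2 h4 h5
      cases h4
      rw [List.ofFn_inj.1 h5]
    rw [← h t, ← h t']
    exact h3 _ _ _ _ _ _ h1 h2
  refine (Cardinal.mk_le_of_injective hinj).trans ?_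
  rw [Cardinal.mk_prod, Cardinal.lift_uzero]
  have h1 : Cardinal.lift.{u} #(Σ k, Frst (Fin k)) ≤ ℵ₀ :=
    (Cardinal.lift_le.2 Cardinal.mk_le_aleph0).trans Cardinal.lift_aleph0.le
  refine (Cardinal.mul_le_max _ _).trans ?_
  refine max_le (max_le (h1.trans (le_max_left _ _)) ?_) (le_max_left _ _)
  exact Cardinal.mk_list_le_max A

theorem mk_fact_le {V : Type u} (W : Set V) (c : Cardinal.{u}) (hc : ℵ₀ ≤ c)
    (hT : #{s : Tm V // VIn W s} ≤ c) : #{f : Fact V | f.Over W} ≤ c := by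
  let T := {s : Tm V // VIn W s}
  let G : (T × T) ⊕ (T × Fml × Frst T) → Fact V := fun x =>
    match x with
    | .inl (s, t) => .lt s.1 t.1
    | .inr (θ, φ, t) => .tr θ.1 φ (t.map Subtype.val)
  have h1 : {f : Fact V | f.Over W} ⊆ Set.range G := by
    rintro (⟨s, t⟩ | ⟨θ, φ, t⟩) hf
    · exact ⟨Sum.inl ((⟨s, hf.1⟩ : T), (⟨t, hf.2⟩ : T)), rfl⟩
    · have hsub : {s : Tm V | VIn W s} ⊆ Set.range (Subtype.val : T → Tm V) :=
        fun s hs => ⟨(⟨s, hs⟩ : T), rfl⟩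
      obtain ⟨t', rfl⟩ := Frst.exists_map_eq (f := (Subtype.val : T → Tm V)) (t := t)
        (Frst.Over.mono hsub hf.2)
      exact ⟨Sum.inr ((⟨θ, hf.1⟩ : T), φ, t'), rfl⟩
  refine (Cardinal.mk_le_mk_of_subset h1).trans (Cardinal.mk_range_le.trans ?_)
  have h2 : #(Frst T) ≤ c := (mk_frst_le T).trans (max_le hc hT)
  have h3 : Cardinal.lift.{u} #Fml ≤ c :=
    ((Cardinal.lift_le.2 Cardinal.mk_le_aleph0).trans Cardinal.lift_aleph0.le).trans hc
  have h4 : #T * #T ≤ c := (mul_le_mul' hT hT).trans (Cardinal.mul_eq_self hc).le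
  have h5 : #(T × Fml × Frst T) ≤ c := by
    rw [Cardinal.mk_prod, Cardinal.mk_prod]
    simp only [Cardinal.lift_id, Cardinal.lift_uzero]
    refine (mul_le_mul' hT (mul_le_mul' h3 h2)).trans ?_
    rw [Cardinal.mul_eq_self hc, Cardinal.mul_eq_self hc]
  rw [Cardinal.mk_sum, Cardinal.mk_prod]
  simp only [Cardinal.lift_id]
  exact (add_le_add h4 h5).trans (Cardinal.add_eq_self hc).le

variable {κ : Cardinal.{u}} {m m' : ℕ}

/-- The set of diagrams of increasing collapsed assignments. -/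
def DD (κ : Cardinal.{u}) (m : ℕ) : Set (Set (Fact (Vr κ m))) :=
  {g | ∃ e : Vr κ m → Ordinal.{u}, Incr e ∧
    (∀ s : Tm (Vr κ m), ∀ o < ev e s, ∃ t : Tm (Vr κ m), ev e t = o) ∧ g = {f | Holds e f}}

/-- The map from diagrams to `P(κ)`. -/
def FF (g : Set (Fact (Vr κ m))) : Set (Idx κ) :=
  {ξ | ∃ e : Vr κ m → Ordinal.{u}, Incr e ∧ g = {f | Holds e f} ∧ ξ ∈ XX e}

theorem mk_fact_Vr_le (hκ : ℵ₀ ≤ κ) : #(Fact (Vr κ m)) ≤ κ := by
  have h1 : {f : Fact (Vr κ m) | f.Over Set.univ} = Set.univ := by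
    ext f
    simp only [mem_ofPred_eq, mem_univ, iff_true]
    have h2 : ∀ s : Tm (Vr κ m), VIn Set.univ s := by
      intro s
      induction s with
      | var v => trivial
      | func f ts ih => exact ih
    cases f with
    | lt s t => exact ⟨h2 s, h2 t⟩
    | tr θ φ t =>
      exact ⟨h2 θ, Frst.Over.mono (S := Set.univ) (fun s _ => h2 s) (Frst.over_univ _)⟩
  rw [← Cardinal.mk_univ, ← h1]
  refine mk_fact_le _ κ hκ ((card_vIn_le _).trans (max_le hκ ?_))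
  rw [Cardinal.mk_univ, Cardinal.mk_sum]
  refine (Cardinal.add_le_max _ _).trans (max_le (max_le ?_ ?_) hκ)
  · simp
  · refine le_trans ?_ hκ
    simp

theorem mk_fact_below_lt (hunc : ℵ₀ < κ) {ε : Ordinal.{u}} (hε : ε < κ.ord) :
    #{f : Fact (Vr κ m) | f.Over (below ε)} < κ := by
  refine (mk_fact_le _ (max ℵ₀ ε.card) (le_max_left _ _) ?_).trans_lt
    (max_lt hunc (Cardinal.lt_ord.1 hε))
  exact (card_vIn_le _).trans (max_le (le_max_left _ _) (card_below_le ε))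

theorem mk_fact_countable {V : Type u} {W : Set V} (hW : W.Countable) :
    #{f : Fact V | f.Over W} ≤ ℵ₀ := by
  refine mk_fact_le _ ℵ₀ le_rfl ?_
  exact (Cardinal.le_aleph0_iff_set_countable).2 (countable_vIn hW)

/-- The set of diagrams is closed. -/
theorem DD_closed (hunc : ℵ₀ < κ) (g : Set (Fact (Vr κ m)))
    (h : ∀ B : Set (Fact (Vr κ m)), #B < κ → ∃ g' ∈ DD κ m, g' ∩ B = g ∩ B) : g ∈ DD κ m := by
  have hcons : Cons g := by
    intro W hW
    obtain ⟨g', ⟨e, -, -, rfl⟩, h2⟩ := h {f | f.Over W} ((mk_fact_countable hW).trans_lt hunc)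
    refine ⟨e, fun f hf => ?_⟩
    have h3 : f ∈ {f | Holds e f} ∩ {f | f.Over W} ↔ f ∈ g ∩ {f | f.Over W} := by rw [h2]
    constructor
    · exact fun h4 => (h3.2 ⟨h4, hf⟩).1
    · exact fun h4 => (h3.1 ⟨h4, hf⟩).1
  obtain ⟨e, he1, he2⟩ := realization g hcons
  have hone : ∀ f : Fact (Vr κ m), (∀ e' : Vr κ m → Ordinal.{u}, Incr e' → Holds e' f) →
      Holds e f := by
    intro f hf
    obtain ⟨g', ⟨e', h1, -, rfl⟩, h2⟩ := h {f} (by
      rw [Cardinal.mk_singleton]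
      exact Cardinal.one_lt_aleph0.trans hunc)
    have h3 : f ∈ {f | Holds e' f} ∩ {f} := ⟨hf e' h1, rfl⟩
    rw [h2] at h3
    exact (he1 f).1 h3.1
  refine ⟨e, ⟨fun ξ η hlt => ?_, fun ξ => ?_⟩, he2, ?_⟩
  · exact hone (.lt (.var (.inl ξ)) (.var (.inl η))) fun e' he' => he'.1 ξ η hlt
  · exact hone (.lt (.var (.inl ξ)) (.var (.inr 0))) fun e' he' => he'.2 ξ
  · ext f
    exact he1 f

/-- Local dependence. -/
theorem XX_local {e e' : Vr κ m → Ordinal.{u}} (he : Incr e) {ε : Ordinal.{u}}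
    (h : ∀ f : Fact (Vr κ m), f.Over (below ε) → (Holds e f ↔ Holds e' f)) {ξ : Idx κ}
    (hξ : num ξ < ε) (hmem : ξ ∈ XX e) : ξ ∈ XX e' := by
  obtain ⟨δ, hδ, hr⟩ := hmem
  have hδε : δ ≤ ε := (le_rho he hδ.1.le).trans (hr.le.trans hξ.le)
  have hlt : ∀ s t : Tm (Vr κ m), VIn (below δ) s → VIn (below δ) t →
      (ev e s < ev e t ↔ ev e' s < ev e' t) := fun s t hs ht =>
    h (.lt s t) ⟨hs.mono (below_mono hδε), ht.mono (below_mono hδε)⟩
  have heq : ∀ s t : Tm (Vr κ m), VIn (below δ) s → VIn (below δ) t →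
      ev e s = ev e t → ev e' s = ev e' t := by
    intro s t hs ht hst
    have h1 := hlt s t hs ht
    have h2 := hlt t s ht hs
    rw [hst, lt_self_iff_false, false_iff, not_lt] at h1
    rw [hst, lt_self_iff_false, false_iff, not_lt] at h2
    exact le_antisymm h2 h1
  have hrho : rho e δ = rho e' δ := by
    rw [rho, rho, hull_eq_range, hull_eq_range]
    exact otp_range_eq fun s t => hlt s.1 t.1 s.2 t.2
  refine ⟨δ, ⟨hδ.1, hδ.2.1, hδ.2.2.1, ?_⟩, hrho ▸ hr⟩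
  rintro o ⟨s, hs, rfl⟩ ho
  have h1 : ev e s < e (.inr 0) := (hlt s (.var (.inr 0)) hs inr_mem_below).2 ho
  obtain ⟨ξ', h2, h3⟩ := hδ.2.2.2 _ ⟨s, hs, rfl⟩ h1
  exact ⟨ξ', h2, heq (.var (.inl ξ')) s (inl_mem_below.2 h2) hs h3⟩

theorem FF_eq {e : Vr κ m → Ordinal.{u}} (he : Incr e) : FF {f | Holds e f} = XX e := by
  ext ξ
  constructor
  · rintro ⟨e', he', h1, h2⟩
    refine XX_local (ε := Order.succ (num ξ)) he' (fun f _ => ?_) (Order.lt_succ _) h2
    have h3 : f ∈ {f | Holds e f} ↔ f ∈ {f | Holds e' f} := by rw [h1]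
    exact h3.symm
  · exact fun h => ⟨e, he, rfl, h⟩

/-- Continuity. -/
theorem FF_continuous (hreg : κ.IsRegular) (hunc : ℵ₀ < κ) (g : Set (Fact (Vr κ m)))
    (hg : g ∈ DD κ m) (A : Set (Idx κ)) (hA : #A < κ) : ∃ B : Set (Fact (Vr κ m)), #B < κ ∧
      ∀ g' ∈ DD κ m, g' ∩ B = g ∩ B → FF g' ∩ A = FF g ∩ A := by
  have h1 : ⨆ ξ : A, Order.succ (num ξ.1) < κ.ord := by
    apply Ordinal.iSup_lt_of_lt_cof
    · rw [hreg.cof_ord]
      exact hA
    · intro ξ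
      exact (Cardinal.isSuccLimit_ord hreg.aleph0_le).succ_lt (num_lt _)
  have h2 : ∀ ξ ∈ A, num ξ < ⨆ ξ : A, Order.succ (num ξ.1) := fun ξ hξ =>
    (Order.lt_succ _).trans_le (Ordinal.le_iSup (fun ξ : A => Order.succ (num ξ.1)) ⟨ξ, hξ⟩)
  refine ⟨_, mk_fact_below_lt hunc h1, ?_⟩
  rintro g' ⟨e', he', -, rfl⟩ hgg
  obtain ⟨e, he, -, rfl⟩ := hg
  have h3 : ∀ f : Fact (Vr κ m), f.Over (below (⨆ ξ : A, Order.succ (num ξ.1))) →
      (Holds e f ↔ Holds e' f) := by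
    intro f hf
    have h4 : f ∈ {f | Holds e' f} ∩ {f | f.Over (below (⨆ ξ : A, Order.succ (num ξ.1)))} ↔
      f ∈ {f | Holds e f} ∩ {f | f.Over (below (⨆ ξ : A, Order.succ (num ξ.1)))} := by rw [hgg]
    constructor
    · exact fun h5 => (h4.2 ⟨h5, hf⟩).1
    · exact fun h5 => (h4.1 ⟨h5, hf⟩).1
  rw [FF_eq he, FF_eq he']
  ext ξ
  constructor
  · rintro ⟨h5, h6⟩
    exact ⟨XX_local he' (fun f hf => (h3 f hf).symm) (h2 ξ h6) h5, h6⟩
  · rintro ⟨h5, h6⟩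
    exact ⟨XX_local he h3 (h2 ξ h6) h5, h6⟩

/-- Either the assignment is standard or `XX e` is small. -/
theorem std_or_small (hκ : ℵ₀ ≤ κ) {e : Vr κ m → Ordinal.{u}} (he : Incr e)
    (hcol : ∀ s : Tm (Vr κ m), ∀ o < ev e s, ∃ t : Tm (Vr κ m), ev e t = o) :
    (∃ γ, Std e γ) ∨ XX e ∈ FinKappa κ := by
  by_cases hC : ∀ ε < κ.ord, ∃ δ ∈ CC e, ε ≤ δ
  · exact Or.inl (std_of_CC hκ he hcol hC)
  · right
    push Not at hC
    obtain ⟨ε, hε, hC⟩ := hC
    choose d hd1 hd2 using fun ξ : XX e => ξ.2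
    have hinj : Function.Injective (fun ξ : XX e =>
        (Ordinal.ToType.mk ⟨d ξ, hC _ (hd1 ξ)⟩ : ε.ToType)) := by
      intro ξ η hh
      have h1 := congrArg Subtype.val (Ordinal.ToType.mk.injective hh)
      simp only at h1
      apply Subtype.ext
      rw [← num_inj, ← hd2, ← hd2, h1]
    refine (Cardinal.mk_le_of_injective hinj).trans_lt ?_
    rw [Cardinal.mk_toType]
    exact Cardinal.lt_ord.1 hε

end Pool.Agent.Helper43.KK
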