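import Pool.Agent.Lib.Helper43.KK.Defs

/-!
# A concrete syntax for definability
-/

set_option autoImplicit false

universe u

namespace Pool.Agent.Helper43.KK

/-- Formulas of set theory, with de Bruijn variables. -/
inductive Fml : Type
  | mem (i j : ℕ) : Fml
  | eq (i j : ℕ) : Fml
  | neg (φ : Fml) : Fml
  | and (φ ψ : Fml) : Fml
  | ex (φ : Fml) : Fml

/-- Satisfaction in `(A, ∈)` for an assignment given by a finite list. -/
def Fml.Sat (A : Set ZFSet.{u}) : Fml → List ZFSet.{u} → Prop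
  | .mem i j, l => ∃ x y, l[i]? = some x ∧ l[j]? = some y ∧ x ∈ y
  | .eq i j, l => ∃ x, l[i]? = some x ∧ l[j]? = some x
  | .neg φ, l => ¬ φ.Sat A l
  | .and φ ψ, l => φ.Sat A l ∧ ψ.Sat A l
  | .ex φ, l => ∃ a ∈ A, φ.Sat A (a :: l)

end Pool.Agent.Helper43.KK
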