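import Mathlib

/-!
# Definitions for MP_b6a793_lc

The constructible hierarchy, the bounded topology on the power set of an uncountable cardinal,
generalized scales and the `K_κ` property.
-/

set_option autoImplicit false

universe u

namespace Pool.Agent.Helper43.KK

open Cardinal Set

/-! ## The constructible hierarchy -/

/-- The language of set theory has a single symbol, the binary relation symbol of membership. -/
inductive MemSymbol : ℕ → Type
  | mem : MemSymbol 2

/-- The first-order language of set theory. -/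
def setLanguage : FirstOrder.Language.{0, 0} := ⟨fun _ => Empty, MemSymbol⟩

/-- Every collection `A` of sets is a structure `(A, ∈)` for the language of set theory. -/
instance memStructure (A : Set ZFSet.{u}) : setLanguage.Structure A where
  funMap := fun f _ => f.elim
  RelMap := fun {n} (r : MemSymbol n) =>
    match n, r with
    | _, MemSymbol.mem => fun v => (v 0 : ZFSet.{u}) ∈ (v 1 : ZFSet.{u})

/-- `Def(A)`: all sets `x ⊆ A` which are first-order definable over `(A, ∈)` with parameters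
from `A`. -/
def DefSubsets (A : Set ZFSet.{u}) : Set ZFSet.{u} :=
  {x | (∀ y ∈ x, y ∈ A) ∧
    (Set.univ : Set A).Definable₁ setLanguage {a : A | (a : ZFSet.{u}) ∈ x}}

/-- The constructible hierarchy `L_α = ⋃_{β < α} Def(L_β)`. -/
def LLevel (α : Ordinal.{u}) : Set ZFSet.{u} :=
  {x | ∃ β, ∃ _ : β < α, x ∈ DefSubsets (LLevel β)}
termination_by α

/-- The axiom of constructibility `V = L`: every set belongs to some `L_α`. -/
def VEqualsL : Prop := ∀ x : ZFSet.{u}, ∃ α : Ordinal.{u}, x ∈ LLevel α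

/-! ## The generalized Cantor space -/

/-- The cardinal `κ` as a well-ordered type (of order type the initial ordinal of `κ`). -/
abbrev Idx (κ : Cardinal.{u}) : Type u := κ.ord.ToType

/-- The bounded topology on `P(κ) = 2^κ`: the basic open sets are the sets
`{x : x ∩ A = s ∩ A}` with `A ⊆ κ` and `|A| < κ`. -/
@[reducible] def boundedTopology (κ : Cardinal.{u}) : TopologicalSpace (Set (Idx κ)) :=
  TopologicalSpace.generateFrom
    {U | ∃ A s : Set (Idx κ), #A < κ ∧ U = {x | x ∩ A = s ∩ A}}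

/-- A subspace `C` of `P(κ)` is `κ`-compact: every cover of `C` by open sets has a subcover of
size less than `κ`. -/
def IsKappaCompact (κ : Cardinal.{u}) (C : Set (Set (Idx κ))) : Prop :=
  ∀ 𝒰 : Set (Set (Set (Idx κ))), (∀ U ∈ 𝒰, (boundedTopology κ).IsOpen U) → C ⊆ ⋃₀ 𝒰 →
    ∃ 𝒱 ⊆ 𝒰, #𝒱 < κ ∧ C ⊆ ⋃₀ 𝒱

/-- `κ` is an uncountable weakly compact cardinal: `2^κ` with the bounded topology is
`κ`-compact. -/
def IsWeaklyCompact (κ : Cardinal.{u}) : Prop :=
  ℵ₀ < κ ∧ IsKappaCompact κ Set.univ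

/-- `Y ⊆ P(κ)` is `K_κ`: it is a union of `κ` many `κ`-compact subspaces. -/
def IsKKappa (κ : Cardinal.{u}) (Y : Set (Set (Idx κ))) : Prop :=
  ∃ C : Idx κ → Set (Set (Idx κ)), (∀ i, IsKappaCompact κ (C i)) ∧ Y = ⋃ i, C i

/-- `Fin_κ = [κ]^{<κ}`. -/
def FinKappa (κ : Cardinal.{u}) : Set (Set (Idx κ)) := {a | #a < κ}

/-- `[κ]^κ`. -/
def Large (κ : Cardinal.{u}) : Set (Set (Idx κ)) := {a | #a = κ}

/-- `f` is the increasing enumeration of `a`. -/
def Enumerates {κ : Cardinal.{u}} (f : Idx κ → Idx κ) (a : Set (Idx κ)) : Prop :=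
  StrictMono f ∧ Set.range f = a

/-- `a ≤*_κ b`: the increasing enumerations of `a` and `b` satisfy
`|{α < κ : a(α) > b(α)}| < κ`. -/
def LeStar {κ : Cardinal.{u}} (a b : Set (Idx κ)) : Prop :=
  ∃ f g : Idx κ → Idx κ, Enumerates f a ∧ Enumerates g b ∧ #{i | g i < f i} < κ

/-- A family `A` is bounded if some `b ∈ [κ]^κ` satisfies `a ≤*_κ b` for all `a ∈ A`. -/
def Bdd {κ : Cardinal.{u}} (A : Set (Set (Idx κ))) : Prop :=
  ∃ b ∈ Large κ, ∀ a ∈ A, LeStar a b

/-- `𝔟_κ`, the least cardinality of an unbounded subset of `[κ]^κ`. -/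
noncomputable def bNumber (κ : Cardinal.{u}) : Cardinal.{u} :=
  sInf {c | ∃ A ⊆ Large κ, ¬ Bdd A ∧ #A = c}

/-- `X` is a `𝔟_κ`-scale: an unbounded set `X = {x_α : α < 𝔟_κ} ⊆ [κ]^κ` with
`x_α ≤*_κ x_β` whenever `α < β < 𝔟_κ`. -/
def IsScale (κ : Cardinal.{u}) (X : Set (Set (Idx κ))) : Prop :=
  ¬ Bdd X ∧ ∃ x : (bNumber κ).ord.ToType → Set (Idx κ),
    (∀ α, x α ∈ Large κ) ∧ (∀ α β, α < β → LeStar (x α) (x β)) ∧ X = Set.range x

end Pool.Agent.Helper43.KK
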