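import Pool.Agent.Lib.Helper43.KK.Bnum
import Pool.Agent.Lib.Helper49.KKCompact

/-!
# Final assembly
-/

set_option autoImplicit false

universe u v w

namespace Pool.Agent.Helper43.KK

open Set Ordinal Cardinal

variable {κ : Cardinal.{u}}

theorem isKappaCompact_singleton (hκ : ℵ₀ ≤ κ) (a : Set (Idx κ)) : IsKappaCompact κ {a} := by
  intro 𝒰 _ hc
  obtain ⟨U, hU, haU⟩ := hc (mem_singleton a)
  refine ⟨{U}, by simpa using hU, ?_, ?_⟩
  · rw [Cardinal.mk_singleton]
    exact Cardinal.one_lt_aleph0.trans_le hκ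
  · rintro x rfl
    exact ⟨U, mem_singleton U, haU⟩

/-- Assembling countably many `κ`-compact sets. -/
theorem isKKappa_of (hreg : κ.IsRegular) (hsl : κ.IsStrongLimit)
    (Y : ℕ → Set (Set (Idx κ))) (hY : ∀ n, IsKappaCompact κ (Y n)) (X : Set (Set (Idx κ)))
    (hX : X ⊆ ⋃ n, Y n) (hY' : ∀ n, Y n ⊆ X ∪ FinKappa κ) : IsKKappa κ (X ∪ FinKappa κ) := by
  have hκ : ℵ₀ ≤ κ := hreg.aleph0_le
  have hfin : #(FinKappa κ) = κ := by
    have h1 := Cardinal.mk_subset_mk_lt_cof (α := Idx κ) (by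
      rw [Cardinal.mk_ord_toType]
      exact hsl.isStrongPrelimit)
    have h2 : cof (#(Idx κ)).ord = κ := by
      rw [Cardinal.mk_ord_toType]
      exact hreg.cof_ord
    rw [h2] at h1
    rw [Cardinal.mk_ord_toType] at h1
    exact h1
  have hidx : #(ℕ ⊕ FinKappa κ) ≤ #(Idx κ) := by
    rw [Cardinal.mk_sum, hfin, Cardinal.mk_ord_toType]
    simp only [Cardinal.mk_nat, Cardinal.lift_aleph0, Cardinal.lift_uzero]
    exact (Cardinal.add_eq_right hκ hκ).le
  obtain ⟨i⟩ := (Cardinal.le_def _ _).1 hidx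
  let Z : ℕ ⊕ FinKappa κ → Set (Set (Idx κ)) := fun z =>
    match z with
    | .inl n => Y n
    | .inr a => {a.1}
  have hZ : ∀ z, IsKappaCompact κ (Z z) := by
    rintro (n | a)
    · exact hY n
    · exact isKappaCompact_singleton hκ a.1
  have hs : Function.Surjective (Function.invFun i) := Function.invFun_surjective i.injective
  refine ⟨fun ξ => Z (Function.invFun i ξ), fun ξ => hZ _, ?_⟩
  ext x
  simp only [mem_iUnion]
  constructor
  · intro hx
    have h1 : ∃ z, x ∈ Z z := by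
      rcases hx with hx | hx
      · obtain ⟨n, hn⟩ := mem_iUnion.1 (hX hx)
        exact ⟨.inl n, hn⟩
      · exact ⟨.inr ⟨x, hx⟩, rfl⟩
    obtain ⟨z, hz⟩ := h1
    obtain ⟨ξ, rfl⟩ := hs z
    exact ⟨ξ, hz⟩
  · rintro ⟨ξ, hξ⟩
    generalize Function.invFun i ξ = z at hξ
    rcases z with n | a
    · exact hY' n hξ
    · right
      have : x = a.1 := hξ
      rw [this]
      exact a.2

/-! ## The scale -/

/-- The scale. -/
def Scale (κ : Cardinal.{u}) : Set (Set (Idx κ)) :=
  {x | ∃ (m : ℕ) (e : Vr κ m → Ordinal.{u}) (γ : Ordinal.{u}), Std e γ ∧ XX e = x}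

/-- The rank function of the scale. -/
noncomputable def srank (x : Set (Idx κ)) : Ordinal.{u} :=
  sInf {γ | ∃ (m : ℕ) (e : Vr κ m → Ordinal.{u}), Std e γ ∧ XX e = x}

theorem srank_spec {x : Set (Idx κ)} (hx : x ∈ Scale κ) :
    ∃ (m : ℕ) (e : Vr κ m → Ordinal.{u}), Std e (srank x) ∧ XX e = x := by
  have h1 : srank x ∈ {γ | ∃ (m : ℕ) (e : Vr κ m → Ordinal.{u}), Std e γ ∧ XX e = x} := by
    apply csInf_mem
    obtain ⟨m, e, γ, h1, h2⟩ := hx
    exact ⟨γ, m, e, h1, h2⟩
  exact h1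

theorem Std.card_le (hκ : ℵ₀ ≤ κ) {m : ℕ} {e : Vr κ m → Ordinal.{u}} {γ : Ordinal.{u}}
    (h : Std e γ) : γ.card ≤ κ := by
  have h1 : Set.Iio γ ⊆ Set.range (fun s : Tm (Vr κ m) => ev e s) := by
    intro o ho
    exact (h.range o).2 ho
  have h2 : #(Tm (Vr κ m)) ≤ κ := by
    refine FirstOrder.Language.Term.card_le.trans (max_le hκ ?_)
    rw [Cardinal.mk_sum, Cardinal.lift_uzero]
    have h3 : Cardinal.lift.{u} #(Σ n, hullL.Functions n) ≤ κ :=
      ((Cardinal.lift_le.2 Cardinal.mk_le_aleph0).trans Cardinal.lift_aleph0.le).trans hκ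
    refine (Cardinal.add_le_max _ _).trans (max_le (max_le ?_ h3) hκ)
    rw [Cardinal.mk_sum]
    refine (Cardinal.add_le_max _ _).trans (max_le (max_le ?_ ?_) hκ)
    · simp
    · refine le_trans ?_ hκ
      simp
  have h3 : Cardinal.lift.{u + 1} γ.card ≤ Cardinal.lift.{u + 1} κ := by
    rw [← Cardinal.mk_Iio_ordinal]
    refine (Cardinal.mk_le_mk_of_subset h1).trans ?_
    have h4 := Cardinal.mk_range_le_lift (f := fun s : Tm (Vr κ m) => ev e s)
    rw [Cardinal.lift_id'.{u, u + 1}] at h4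
    exact h4.trans (Cardinal.lift_le.2 h2)
  exact Cardinal.lift_le.1 h3

theorem scale_subset (hreg : κ.IsRegular) (hsl : κ.IsStrongLimit) (hunc : ℵ₀ < κ) :
    Scale κ ⊆ Large κ := by
  rintro _ ⟨m, e, γ, h, rfl⟩
  exact h.large hreg hsl hunc

theorem scale_unbounded (hVL : VEqualsL.{u}) (hunc : ℵ₀ < κ) : ¬ Bdd (Scale κ) := by
  rintro ⟨b, hb, h⟩
  obtain ⟨m, e, γ, he, hcl⟩ := exists_std_of_VL hVL hb
  exact not_leStar_XX hunc he hcl (h _ ⟨m, e, γ, he, rfl⟩)

theorem scale_isScale (hVL : VEqualsL.{u}) (hreg : κ.IsRegular) (hsl : κ.IsStrongLimit)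
    (hunc : ℵ₀ < κ) : IsScale κ (Scale κ) := by
  have hκ : ℵ₀ ≤ κ := hunc.le
  refine isScale_of_rank hreg _ (scale_subset hreg hsl hunc) (scale_unbounded hVL hunc) srank
    ?_ ?_ ?_
  · intro x hx
    obtain ⟨m, e, he, -⟩ := srank_spec hx
    rw [Cardinal.lt_ord, Order.lt_succ_iff]
    exact he.card_le hκ
  · intro γ
    by_cases hγ : γ.card ≤ κ
    · -- choose representatives
      have h1 : ∀ x : {x // x ∈ Scale κ ∧ srank x = γ}, ∃ (m : ℕ) (e : Vr κ m → Ordinal.{u}),
          Std e γ ∧ XX e = x.1 := by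
        rintro ⟨x, hx, rfl⟩
        exact srank_spec hx
      choose m e he hxe using h1
      have hlt : ∀ x (i : Fin (m x + 1)), e x (.inr i) < γ := fun x i =>
        ((he x).range _).1 ⟨.var (.inr i), rfl⟩
      let J : {x // x ∈ Scale κ ∧ srank x = γ} → List γ.ToType := fun x =>
        List.ofFn (fun i : Fin (m x + 1) => (Ordinal.ToType.mk ⟨e x (.inr i), hlt x i⟩ : γ.ToType))
      have hJ : Function.Injective J := by
        intro x y hxy
        have key : ∀ (n1 n2 : ℕ) (e1 : Vr κ n1 → Ordinal.{u}) (e2 : Vr κ n2 → Ordinal.{u})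
            (s1 : Std e1 γ) (s2 : Std e2 γ) (l1 : ∀ i, e1 (.inr i) < γ)
            (l2 : ∀ i, e2 (.inr i) < γ),
            List.ofFn (fun i : Fin (n1 + 1) =>
              (Ordinal.ToType.mk ⟨e1 (.inr i), l1 i⟩ : γ.ToType)) =
            List.ofFn (fun i : Fin (n2 + 1) =>
              (Ordinal.ToType.mk ⟨e2 (.inr i), l2 i⟩ : γ.ToType)) → XX e1 = XX e2 := by
          intro n1 n2 e1 e2 s1 s2 l1 l2 hl
          have hn : n1 = n2 := by
            have := congrArg List.length hl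
            simpa using this
          subst hn
          have h2 := List.ofFn_inj.1 hl
          have h3 : e1 = e2 := by
            funext v
            rcases v with ξ | i
            · rw [s1.inl, s2.inl]
            · have h4 := congrFun h2 i
              have h5 := congrArg Subtype.val (Ordinal.ToType.mk.injective h4)
              exact h5
          rw [h3]
        apply Subtype.ext
        rw [← hxe x, ← hxe y]
        exact key _ _ _ _ (he x) (he y) (hlt x) (hlt y) hxy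
      refine (Cardinal.mk_le_of_injective hJ).trans ?_
      refine (Cardinal.mk_list_le_max _).trans (max_le hκ ?_)
      rw [Cardinal.mk_toType]
      exact hγ
    · have : IsEmpty {x // x ∈ Scale κ ∧ srank x = γ} := by
        refine ⟨?_⟩
        rintro ⟨x, hx, rfl⟩
        obtain ⟨m, e, he, -⟩ := srank_spec hx
        exact hγ (he.card_le hκ)
      rw [Cardinal.mk_eq_zero]
      exact zero_le
  · intro x hx y hy hle
    obtain ⟨m, e, he, hxe⟩ := srank_spec hx
    obtain ⟨m', e', he', hye⟩ := srank_spec hy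
    obtain ⟨fx, hfx⟩ := exists_enumerates (scale_subset hreg hsl hunc hx)
    obtain ⟨fy, hfy⟩ := exists_enumerates (scale_subset hreg hsl hunc hy)
    rw [← hxe] at hfx ⊢
    rw [← hye] at hfy ⊢
    exact leStar_XX hunc he' he hle hfy hfx

theorem scale_kKappa (h : IsWeaklyCompact κ) : IsKKappa κ (Scale κ ∪ FinKappa κ) := by
  have hreg := h.isRegular
  have hsl := h.isStrongLimit
  have hunc := h.1
  have hκ : ℵ₀ ≤ κ := hunc.le
  refine isKKappa_of hreg hsl (fun m => FF '' DD κ m) ?_ _ ?_ ?_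
  · intro m
    exact image_kappaCompact h (mk_fact_Vr_le hκ) (DD κ m) (fun g hg => DD_closed hunc g hg) FF
      fun g hg A hA => FF_continuous hreg hunc g hg A hA
  · rintro _ ⟨m, e, γ, he, rfl⟩
    refine mem_iUnion.2 ⟨m, {f | Holds e f}, ⟨e, he.incr, ?_, rfl⟩, FF_eq he.incr⟩
    intro s o ho
    exact (he.range o).2 (ho.trans ((he.range _).1 ⟨s, rfl⟩))
  · rintro m _ ⟨g, ⟨e, he, hcol, rfl⟩, rfl⟩
    rw [FF_eq he]
    rcases std_or_small hκ he hcol with ⟨γ, hγ⟩ | hs
    · exact Or.inl ⟨m, e, γ, hγ, rfl⟩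
    · exact Or.inr hs

/-- Under `V = L`, for every uncountable weakly compact cardinal `κ` there is a `𝔟_κ`-scale `X`
such that `X ∪ Fin_κ` is `K_κ`. -/
theorem exists_scale (hVL : VEqualsL.{u}) (h : IsWeaklyCompact κ) :
    ∃ X : Set (Set (Idx κ)), IsScale κ X ∧ IsKKappa κ (X ∪ FinKappa κ) :=
  ⟨Scale κ, scale_isScale hVL h.isRegular h.isStrongLimit h.1, scale_kKappa h⟩

end Pool.Agent.Helper43.KK
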