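import Pool.Agent.Lib.Helper43.KK.Scale3

/-!
# Unboundedness under `V = L`
-/

set_option autoImplicit false

universe u v w

namespace Pool.Agent.Helper43.KK

open Set Ordinal Cardinal

variable {κ : Cardinal.{u}} {m m' : ℕ}

theorem holds_eq_iff {V : Type u} {e e' : V → Ordinal.{u}} (h : ∀ f : Fact V, Holds e f ↔ Holds e' f)
    {s t : Tm V} : ev e s = ev e t ↔ ev e' s = ev e' t := by
  have h1 := h (.lt s t)
  have h2 := h (.lt t s)
  simp only [Holds] at h1 h2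
  constructor
  · intro hh
    rw [hh, lt_self_iff_false, false_iff, not_lt] at h1
    rw [hh, lt_self_iff_false, false_iff, not_lt] at h2
    exact le_antisymm h2 h1
  · intro hh
    rw [hh, lt_self_iff_false, iff_false, not_lt] at h1
    rw [hh, lt_self_iff_false, iff_false, not_lt] at h2
    exact le_antisymm h2 h1

theorem mem_nmval_true {a : Ordinal.{u}} {l : List ZFSet.{u}} {x : ZFSet.{u}} :
    x ∈ nmval a (.eq 0 0) l ↔ x ∈ LLevel a := by
  rw [mem_nmval]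
  constructor
  · exact fun h => h.1
  · exact fun h => ⟨h, x, by simp, by simp⟩

theorem nmval_true_mem_iff {a b : Ordinal.{u}} {l : List ZFSet.{u}}
    (hl : ∀ x ∈ l, x ∈ LLevel a) : nmval a (.eq 0 0) l ∈ LLevel b ↔ a < b := by
  constructor
  · intro h
    by_contra hn
    rw [not_lt] at hn
    have := LLevel_mono hn h
    rw [← mem_nmval_true (l := l)] at this
    exact ZFSet.mem_irrefl _ this
  · exact fun h => nmval_mem h hl

theorem nmval_true_eq {a : Ordinal.{u}} {l l' : List ZFSet.{u}} :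
    nmval a (.eq 0 0) l = nmval a (.eq 0 0) l' := by
  ext x
  rw [mem_nmval_true, mem_nmval_true]

theorem nmval_true_inj {a b : Ordinal.{u}}
    (h : nmval a (.eq 0 0) [] = nmval b (.eq 0 0) []) : a = b := by
  rcases lt_trichotomy a b with h1 | h1 | h1
  · have h2 := (nmval_true_mem_iff (l := []) (by simp)).2 h1
    rw [h, ← mem_nmval_true (l := [])] at h2
    exact absurd h2 (ZFSet.mem_irrefl _)
  · exact h1
  · have h2 := (nmval_true_mem_iff (l := []) (by simp)).2 h1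
    rw [← h, ← mem_nmval_true (l := [])] at h2
    exact absurd h2 (ZFSet.mem_irrefl _)

/-- Unboundedness data from `V = L`. -/
theorem exists_std_of_VL (hVL : VEqualsL.{u}) {b : Set (Idx κ)}
    (hb : b ∈ Large κ) : ∃ (m : ℕ) (e : Vr κ m → Ordinal.{u}) (γ : Ordinal.{u}), Std e γ ∧
      ∀ δ ∈ CC e, ∀ ξ : Idx κ, num ξ < δ → ∃ η ∈ b, ξ ≤ η ∧ num η < δ := by
  -- the set coding `b`
  let B : ZFSet.{u} := ZFSet.range (fun ξ : b => nmval (num ξ.1) (.eq 0 0) [])
  have hB : ∀ x, x ∈ B ↔ ∃ ξ ∈ b, nmval (num ξ) (.eq 0 0) [] = x := by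
    intro x
    simp [B]
  obtain ⟨α₀, hα₀⟩ := hVL B
  let α := max α₀ κ.ord
  have hα : B ∈ LLevel α := LLevel_mono (le_max_left _ _) hα₀
  have hκα : κ.ord ≤ α := le_max_right _ _
  obtain ⟨b0, ψ, c, hb0, hc, hBn⟩ := exists_name hα
  obtain ⟨k, σ, a, ha1, ha2⟩ := Frst.exists_fin' (.cons b0 ψ c .nil) (T := Iio α)
    ⟨hb0, hc.over.mono (Iio_subset_Iio hb0.le), trivial⟩
  -- the assignment
  let e0 : Vr κ (k + 1) → Ordinal.{u} := Sum.elim num
    (Fin.cons κ.ord (Fin.cons α a : Fin (k + 1) → Ordinal.{u}) : Fin (k + 1 + 1) → Ordinal.{u})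
  have e0l : ∀ ξ, e0 (.inl ξ) = num ξ := fun ξ => rfl
  have e00 : e0 (.inr 0) = κ.ord := rfl
  have e01 : e0 (.inr 1) = α := rfl
  have e02 : ∀ i : Fin k, e0 (.inr i.succ.succ) = a i := fun i => rfl
  obtain ⟨e, he1, he2⟩ := realization {f | Holds e0 f} fun W _ => ⟨e0, fun f _ => Iff.rfl⟩
  have hF : ∀ f, Holds e0 f ↔ Holds e f := fun f => he1 f
  have hlt : ∀ s t, ev e0 s < ev e0 t ↔ ev e s < ev e t := fun s t => hF (.lt s t)
  have hincr : Incr e := by
    constructor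
    · intro ξ η h
      refine (hlt (.var (.inl ξ)) (.var (.inl η))).1 ?_
      exact num_lt_num.2 h
    · intro ξ
      refine (hlt (.var (.inl ξ)) (.var (.inr 0))).1 ?_
      exact num_lt ξ
  obtain ⟨γ, hγ⟩ : ∃ γ, Std e γ := by
    refine std_of hincr he2 ?_
    intro s hs
    have h1 : ev e0 s < κ.ord := (hlt s (.var (.inr 0))).2 hs
    obtain ⟨ξ, hξ⟩ := exists_num h1
    exact ⟨ξ, (holds_eq_iff hF (s := .var (.inl ξ)) (t := s)).1 hξ⟩
  refine ⟨k + 1, e, γ, hγ, ?_⟩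
  intro δ hδ ξ hξ
  -- an element of `b` above `ξ`
  obtain ⟨η, hηb, hξη⟩ : ∃ η ∈ b, ξ ≤ η := by
    by_contra hn
    push Not at hn
    have h1 : b ⊆ {η : Idx κ | num η < num ξ} := fun η hη => num_lt_num.2 (hn η hη)
    have h2 := (Cardinal.mk_le_mk_of_subset h1).trans (card_num_lt _)
    rw [show #b = κ from hb, ← not_lt, ← Cardinal.lt_ord] at h2
    exact h2 (num_lt ξ)
  -- the forest `[B, ξ]`
  let tB : Frst (Tm (Vr κ (k + 1))) := σ.map (fun i => .var (.inr i.succ.succ))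
  let tξ : Frst (Tm (Vr κ (k + 1))) := .cons (.var (.inl ξ)) (.eq 0 0) .nil .nil
  have htB : tB.map (ev e0) = .cons b0 ψ c .nil := by
    rw [← ha2]
    simp only [tB, Frst.map_map]
    rfl
  have htξ : tξ.map (ev e0) = .cons (num ξ) (.eq 0 0) .nil .nil := rfl
  have ot : (tB.app tξ).Over {s | VIn (below δ) s} := by
    refine Frst.over_app.2 ⟨?_, ?_, trivial, trivial⟩
    · simp only [tB, Frst.over_map]
      refine Frst.Over.mono (S := Set.univ) (fun i _ => ?_) (Frst.over_univ _)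
      exact (inr_mem_below : (Sum.inr i.succ.succ : Vr κ (k + 1)) ∈ below δ)
    · exact (inl_mem_below.2 hξ : (Sum.inl ξ : Vr κ (k + 1)) ∈ below δ)
  have hmap : (tB.app tξ).map (ev e0) =
      .cons b0 ψ c (.cons (num ξ) (.eq 0 0) .nil .nil) := by
    rw [Frst.map_app, htB, htξ]
    rfl
  have hξα : num ξ < α := (num_lt ξ).trans_le hκα
  have key : ∀ (o : Ordinal.{u}) (d : Frst Ordinal.{u}), o < κ.ord → Proper o d →
      (Tr α (.and (.mem 0 1) (.neg (.mem 0 2))) (.cons o (.eq 0 0) d ((tB.app tξ).map (ev e0))) ↔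
        nmval o (.eq 0 0) [] ∈ B ∧ ¬ o < num ξ) := by
    intro o d ho pd
    rw [hmap]
    simp only [Tr, Proper, Fml.Sat, vals_cons, vals_nil,
      List.getElem?_cons_zero, List.getElem?_cons_succ, Option.some.injEq]
    have h1 : nmval o (.eq 0 0) (vals d) = nmval o (.eq 0 0) [] := nmval_true_eq
    have h2 : nmval o (.eq 0 0) [] ∈ nmval (num ξ) (.eq 0 0) [] ↔ o < num ξ := by
      rw [mem_nmval_true, nmval_true_mem_iff (by simp)]
    constructor
    · rintro ⟨-, ⟨x1, y1, rfl, rfl, h3⟩, h4⟩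
      rw [h1, hBn] at h3
      refine ⟨h3, fun h5 => h4 ⟨_, _, rfl, rfl, ?_⟩⟩
      rw [h1]
      exact h2.2 h5
    · rintro ⟨h3, h4⟩
      refine ⟨⟨ho.trans_le hκα, pd, hb0, hc, hξα, trivial, trivial⟩, ⟨_, _, rfl, rfl, ?_⟩, ?_⟩
      · rw [h1, hBn]
        exact h3
      · rintro ⟨x1, y1, rfl, rfl, h5⟩
        rw [h1] at h5
        exact h4 (h2.1 h5)
  obtain ⟨w, d, ow, -, hw, pd, h5⟩ := exists_term_wit e0
    (θ := (.var (.inr 1) : Tm (Vr κ (k + 1)))) (β := .var (.inr 0))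
    (W := below δ) (φ := .and (.mem 0 1) (.neg (.mem 0 2))) (t := tB.app tξ)
    (b' := num η) (ψ := .eq 0 0) (c' := .nil)
    (inr_mem_below : (Sum.inr 1 : Vr κ (k + 1)) ∈ below δ)
    (inr_mem_below : (Sum.inr 0 : Vr κ (k + 1)) ∈ below δ) ot (num_lt η) trivial
    ((key (num η) .nil (num_lt η) trivial).2
      ⟨(hB _).2 ⟨η, hηb, rfl⟩, not_lt.2 (num_le_num.2 hξη)⟩)
  have hw' : ev e0 w < κ.ord := hw
  rw [Frst.map_cons] at h5
  obtain ⟨h6, h7⟩ := (key _ _ hw' pd).1 h5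
  obtain ⟨η', hη'b, hη'⟩ := (hB _).1 h6
  have h8 := nmval_true_inj hη'
  have h9 : ev e w < e (.inr 0) := (hlt w (.var (.inr 0))).1 hw
  obtain ⟨ξ', hξ'1, hξ'2⟩ := hδ.2.2.2 _ ⟨w, ow, rfl⟩ h9
  have h10 : num ξ' = ev e0 w :=
    (holds_eq_iff hF (s := .var (.inl ξ')) (t := w)).2 hξ'2
  rw [← h8, num_inj] at h10
  subst h10
  refine ⟨ξ', hη'b, ?_, hξ'1⟩
  rw [← h8, not_lt, num_le_num] at h7
  exact h7

end Pool.Agent.Helper43.KK
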