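import Pool.Agent.Lib.Helper43.KK.Names

/-!
# The algebra of lexicographically least witnesses on the ordinals
-/

set_option autoImplicit false

universe u v w

namespace Pool.Agent.Helper43.KK

open Set Ordinal

deriving instance Countable for Fml
deriving instance Countable for Frst

/-- A function symbol of arity `n`: ask for the lexicographically least `k`-tuple `a` below the
ordinal number `be` such that `φ` holds at level `th` of the forest `σ(a)` followed by `τ`, and
return its `i`-th entry. -/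
structure FSym (n : ℕ) : Type where
  k : ℕ
  σ : Frst (Fin k)
  φ : Fml
  τ : Frst (Fin n)
  th : Fin n
  be : Fin n
  i : Fin k

deriving instance Countable for FSym

/-- The language with these function symbols. -/
def hullL : FirstOrder.Language.{0, 0} := ⟨FSym, fun _ => Empty⟩

instance : Countable (Σ n, hullL.Functions n) :=
  inferInstanceAs (Countable (Σ n, FSym n))

instance : IsEmpty (Σ n, hullL.Relations n) :=
  ⟨fun x => Empty.elim x.2⟩

/-- The lexicographic order on tuples of ordinals. -/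
def LexLT {k : ℕ} (a b : Fin k → Ordinal.{u}) : Prop :=
  Pi.Lex (· < ·) (fun {_} => (· < ·)) a b

theorem lexLT_wf (k : ℕ) : WellFounded (LexLT : (Fin k → Ordinal.{u}) → _ → Prop) :=
  Pi.Lex.wellFounded (· < ·) (fun _ => wellFounded_lt)

theorem lexLT_iff {k : ℕ} {a b : Fin k → Ordinal.{u}} :
    LexLT a b ↔ ∃ i, (∀ j < i, a j = b j) ∧ a i < b i := Iff.rfl

theorem lexLT_trichotomous {k : ℕ} (a b : Fin k → Ordinal.{u}) :
    LexLT a b ∨ a = b ∨ LexLT b a := by
  have h := lt_trichotomy (toLex a) (toLex b)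
  exact h

/-- `a` is a witness. -/
def IsWit (θ β : Ordinal.{u}) (φ : Fml) (t : Frst Ordinal.{u}) {k : ℕ} (σ : Frst (Fin k))
    (a : Fin k → Ordinal.{u}) : Prop :=
  (∀ i, a i < β) ∧ Proper β (σ.map a) ∧ Tr θ φ ((σ.map a).app t)

/-- The lexicographically least witness. -/
def IsLeastWit (θ β : Ordinal.{u}) (φ : Fml) (t : Frst Ordinal.{u}) {k : ℕ} (σ : Frst (Fin k))
    (a : Fin k → Ordinal.{u}) : Prop :=
  IsWit θ β φ t σ a ∧ ∀ b, IsWit θ β φ t σ b → ¬ LexLT b a

theorem IsLeastWit.unique {θ β : Ordinal.{u}} {φ : Fml} {t : Frst Ordinal.{u}} {k : ℕ}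
    {σ : Frst (Fin k)} {a b : Fin k → Ordinal.{u}} (ha : IsLeastWit θ β φ t σ a)
    (hb : IsLeastWit θ β φ t σ b) : a = b := by
  rcases lexLT_trichotomous a b with h | h | h
  · exact absurd h (hb.2 a ha.1)
  · exact h
  · exact absurd h (ha.2 b hb.1)

theorem exists_isLeastWit {θ β : Ordinal.{u}} {φ : Fml} {t : Frst Ordinal.{u}} {k : ℕ}
    {σ : Frst (Fin k)} (h : ∃ a, IsWit θ β φ t σ a) : ∃ a, IsLeastWit θ β φ t σ a := by
  obtain ⟨a, ha, hm⟩ := (lexLT_wf k).has_min {a | IsWit θ β φ t σ a} h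
  exact ⟨a, ha, hm⟩

open Classical in
/-- The value of the function symbol `f` at `v`. -/
noncomputable def fval {n : ℕ} (f : FSym n) (v : Fin n → Ordinal.{u}) : Ordinal.{u} :=
  if h : ∃ a, IsLeastWit (v f.th) (v f.be) f.φ (f.τ.map v) f.σ a then h.choose f.i else v f.th

theorem fval_eq {n : ℕ} (f : FSym n) (v : Fin n → Ordinal.{u}) {a : Fin f.k → Ordinal.{u}}
    (h : IsLeastWit (v f.th) (v f.be) f.φ (f.τ.map v) f.σ a) : fval f v = a f.i := by
  have h' : ∃ a, IsLeastWit (v f.th) (v f.be) f.φ (f.τ.map v) f.σ a := ⟨a, h⟩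
  rw [fval, dif_pos h', h'.choose_spec.unique h]

theorem fval_eq_of_not {n : ℕ} (f : FSym n) (v : Fin n → Ordinal.{u})
    (h : ¬ ∃ a, IsWit (v f.th) (v f.be) f.φ (f.τ.map v) f.σ a) : fval f v = v f.th := by
  rw [fval, dif_neg]
  rintro ⟨a, ha⟩
  exact h ⟨a, ha.1⟩

/-- The ordinals as a structure for the hull language. -/
noncomputable instance ordStructure : hullL.Structure Ordinal.{u} where
  funMap := fun f v => fval f v
  RelMap := fun r _ => r.elim

theorem funMap_eq {n : ℕ} (f : hullL.Functions n) (v : Fin n → Ordinal.{u}) :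
    FirstOrder.Language.Structure.funMap f v = fval f v := rfl

/-! ## Terms -/

/-- Terms with variables in `V`. -/
abbrev Tm (V : Type u) : Type u := hullL.Term V

variable {V : Type u}

/-- Evaluation of terms. -/
noncomputable abbrev ev (e : V → Ordinal.{u}) (s : Tm V) : Ordinal.{u} := s.realize e

/-- All variables of the term lie in `W`. -/
def VIn (W : Set V) : Tm V → Prop
  | .var v => v ∈ W
  | .func _ ts => ∀ i, VIn W (ts i)

theorem VIn.mono {W W' : Set V} (h : W ⊆ W') {s : Tm V} (hs : VIn W s) : VIn W' s := by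
  induction s with
  | var v => exact h hs
  | func f ts ih => exact fun i => ih i (hs i)

theorem exists_finite_vIn (s : Tm V) : ∃ W : Set V, W.Finite ∧ VIn W s := by
  induction s with
  | var v => exact ⟨{v}, finite_singleton v, mem_singleton v⟩
  | func f ts ih =>
    choose W hW h using ih
    exact ⟨⋃ i, W i, finite_iUnion hW, fun i => (h i).mono (subset_iUnion W i)⟩

theorem ev_congr {W : Set V} {e e' : V → Ordinal.{u}} (h : ∀ v ∈ W, e v = e' v) {s : Tm V}
    (hs : VIn W s) : ev e s = ev e' s := by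
  induction s with
  | var v => exact h v hs
  | func f ts ih =>
    simp only [ev, FirstOrder.Language.Term.realize_func]
    congr 1
    funext i
    exact ih i (hs i)

theorem countable_vIn {W : Set V} (hW : W.Countable) : {s : Tm V | VIn W s}.Countable := by
  have : Countable W := hW
  have : Countable (hullL.Term W) := inferInstance
  refine (countable_range (fun s : hullL.Term W => (s.relabel (Subtype.val : W → V)))).mono ?_
  intro s hs
  induction s with
  | var v => exact ⟨.var ⟨v, hs⟩, rfl⟩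
  | func f ts ih =>
    choose ss hss using fun i => ih i (hs i)
    exact ⟨.func f ss, by simp [FirstOrder.Language.Term.relabel, hss]⟩

/-- Every forest is of the form `σ.map a` for a finite tuple `a`. -/
theorem Frst.exists_fin' {A : Type v} {T : Set A} (t : Frst A) (h : t.Over T) :
    ∃ (k : ℕ) (σ : Frst (Fin k)) (a : Fin k → A), (∀ i, a i ∈ T) ∧ σ.map a = t := by
  obtain ⟨s, hs⟩ := exists_map_eq (f := (Subtype.val : T → A)) (t := t) (by simpa using h)
  obtain ⟨k, σ, a, ha⟩ := s.exists_fin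
  refine ⟨k, σ, fun i => (a i : A), fun i => (a i).2, ?_⟩
  rw [← hs, ← ha, map_map]

theorem exists_args {A : Type v} {T : Set A} {θ β : A} {t : Frst A} (hθ : θ ∈ T) (hβ : β ∈ T)
    (ht : t.Over T) : ∃ (n : ℕ) (ts : Fin n → A) (τ : Frst (Fin n)) (th be : Fin n),
      (∀ i, ts i ∈ T) ∧ ts th = θ ∧ ts be = β ∧ τ.map ts = t := by
  obtain ⟨n, σ, ts, h1, h2⟩ := Frst.exists_fin'
    (.cons θ (.eq 0 0) .nil (.cons β (.eq 0 0) .nil t)) (T := T) ⟨hθ, trivial, hβ, trivial, ht⟩
  cases σ with
  | nil => simp at h2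
  | cons th _ _ σ =>
    cases σ with
    | nil => simp at h2
    | cons be _ _ τ =>
      simp only [Frst.map_cons, Frst.cons.injEq] at h2
      exact ⟨n, ts, τ, th, be, h1, h2.1, h2.2.2.2.1, h2.2.2.2.2.2.2⟩

/-- Witnesses are values of terms. -/
theorem exists_term_wit {W : Set V} (e : V → Ordinal.{u}) {θ β : Tm V} (hθ : VIn W θ)
    (hβ : VIn W β) {φ : Fml} {t : Frst (Tm V)} (ht : t.Over {s | VIn W s})
    {b' : Ordinal.{u}} {ψ : Fml} {c' : Frst Ordinal.{u}} (hb : b' < ev e β)
    (hc : Proper b' c') (h : Tr (ev e θ) φ (.cons b' ψ c' (t.map (ev e)))) :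
    ∃ (b : Tm V) (c : Frst (Tm V)), VIn W b ∧ c.Over {s | VIn W s} ∧ ev e b < ev e β ∧
      Proper (ev e b) (c.map (ev e)) ∧ Tr (ev e θ) φ ((Frst.cons b ψ c t).map (ev e)) := by
  obtain ⟨k, σ, a, ha1, ha2⟩ := Frst.exists_fin' (.cons b' ψ c' .nil) (T := Iio (ev e β))
    ⟨hb, hc.over.mono (Iio_subset_Iio hb.le), trivial⟩
  obtain ⟨n, ts, τ, th, be, hts, rfl, rfl, rfl⟩ := exists_args (T := {s | VIn W s}) hθ hβ ht
  have hw : ∃ a, IsWit (ev e (ts th)) (ev e (ts be)) φ ((τ.map ts).map (ev e)) σ a := by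
    refine ⟨a, ha1, ?_, ?_⟩
    · rw [ha2]
      exact ⟨hb, hc, trivial⟩
    · rw [ha2]
      exact h
  obtain ⟨a', ha'⟩ := exists_isLeastWit hw
  let s : Fin k → Tm V := fun j =>
    .func (show hullL.Functions n from (⟨k, σ, φ, τ, th, be, j⟩ : FSym n)) ts
  have hs : ∀ j, ev e (s j) = a' j := by
    intro j
    have : ev e (s j) = fval (⟨k, σ, φ, τ, th, be, j⟩ : FSym n) (fun i => ev e (ts i)) := rfl
    rw [this]
    refine fval_eq (⟨k, σ, φ, τ, th, be, j⟩ : FSym n) (fun i => ev e (ts i)) (a := a') ?_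
    rw [Frst.map_map] at ha'
    exact ha'
  have hs' : (fun j => ev e (s j)) = a' := funext hs
  cases σ with
  | nil => simp at ha2
  | cons i ψ' σc σr =>
    simp only [Frst.map_cons, Frst.cons.injEq] at ha2
    obtain ⟨h1, rfl, h3, h4⟩ := ha2
    obtain ⟨⟨w1, w2, w3⟩, -⟩ := ha'
    cases σr with
    | cons => simp at h4
    | nil =>
      have hV : ∀ j, VIn W (s j) := fun j => hts
      refine ⟨s i, σc.map s, hV i, ?_, ?_, ?_, ?_⟩
      · rw [Frst.over_map]
        exact Frst.Over.mono (S := univ) (fun j _ => hV j) (Frst.over_univ _)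
      · rw [hs]
        exact w1 i
      · rw [Frst.map_map, hs', hs]
        exact w2.2.1
      · rw [Frst.map_cons, Frst.map_map, hs', hs]
        exact w3

end Pool.Agent.Helper43.KK
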