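import Pool.Agent.Lib.Helper49.KKDefinable

/-!
# Names for constructible sets
-/

set_option autoImplicit false

universe u v w

namespace Pool.Agent.Helper43.KK

open Set Ordinal

/-! ## Forests: finite lists of names -/

/-- A forest with labels in `A`: a finite list of names; a name consists of a label, a formula and
a forest of parameters. -/
inductive Frst (A : Type v) : Type v
  | nil : Frst A
  | cons (a : A) (φ : Fml) (c r : Frst A) : Frst A

namespace Frst

variable {A : Type v} {B : Type w}

/-- Relabelling. -/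
def map (f : A → B) : Frst A → Frst B
  | nil => nil
  | cons a φ c r => cons (f a) φ (c.map f) (r.map f)

/-- Concatenation. -/
def app : Frst A → Frst A → Frst A
  | nil, s => s
  | cons a φ c r, s => cons a φ c (r.app s)

/-- All labels lie in `S`. -/
def Over (S : Set A) : Frst A → Prop
  | nil => True
  | cons a _ c r => a ∈ S ∧ c.Over S ∧ r.Over S

@[simp] theorem map_nil (f : A → B) : (nil : Frst A).map f = nil := rfl
@[simp] theorem map_cons (f : A → B) (a : A) (φ : Fml) (c r : Frst A) :
    (cons a φ c r).map f = cons (f a) φ (c.map f) (r.map f) := rfl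

theorem map_map {C : Type*} (f : A → B) (g : B → C) (t : Frst A) :
    (t.map f).map g = t.map (fun a => g (f a)) := by
  induction t with
  | nil => rfl
  | cons a φ c r hc hr => simp [hc, hr]

theorem map_app (f : A → B) (s t : Frst A) : (s.app t).map f = (s.map f).app (t.map f) := by
  induction s with
  | nil => rfl
  | cons a φ c r hc hr => simp [app, hr]

theorem map_congr {f g : A → B} {S : Set A} {t : Frst A} (h : t.Over S)
    (hfg : ∀ a ∈ S, f a = g a) : t.map f = t.map g := by
  induction t with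
  | nil => rfl
  | cons a φ c r hc hr =>
    obtain ⟨h1, h2, h3⟩ := h
    simp [hc h2, hr h3, hfg a h1]

theorem map_id (t : Frst A) : t.map (fun a => a) = t := by
  induction t with
  | nil => rfl
  | cons a φ c r hc hr => simp [hc, hr]

theorem Over.mono {S T : Set A} (h : S ⊆ T) {t : Frst A} (ht : t.Over S) : t.Over T := by
  induction t with
  | nil => trivial
  | cons a φ c r hc hr => exact ⟨h ht.1, hc ht.2.1, hr ht.2.2⟩

theorem over_app {S : Set A} {s t : Frst A} : (s.app t).Over S ↔ s.Over S ∧ t.Over S := by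
  induction s with
  | nil => simp [app, Over]
  | cons a φ c r hc hr => simp [app, Over, hr, and_assoc]

theorem over_map {S : Set B} {f : A → B} {t : Frst A} : (t.map f).Over S ↔ t.Over (f ⁻¹' S) := by
  induction t with
  | nil => simp [Over]
  | cons a φ c r hc hr => simp [Over, hc, hr]

theorem over_univ (t : Frst A) : t.Over univ := by
  induction t with
  | nil => trivial
  | cons a φ c r hc hr => exact ⟨trivial, hc, hr⟩

/-- Every forest uses finitely many labels. -/
theorem exists_finite (t : Frst A) : ∃ S : Set A, S.Finite ∧ t.Over S := by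
  induction t with
  | nil => exact ⟨∅, finite_empty, trivial⟩
  | cons a φ c r hc hr =>
    obtain ⟨S, hS, h1⟩ := hc
    obtain ⟨T, hT, h2⟩ := hr
    exact ⟨insert a (S ∪ T), (hS.union hT).insert a, mem_insert _ _,
      h1.mono (subset_union_left.trans (subset_insert _ _)),
      h2.mono (subset_union_right.trans (subset_insert _ _))⟩

/-- Lifting a forest along a map. -/
theorem exists_map_eq {f : A → B} {t : Frst B} (h : t.Over (range f)) :
    ∃ s : Frst A, s.map f = t := by
  induction t with
  | nil => exact ⟨nil, rfl⟩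
  | cons a φ c r hc hr =>
    obtain ⟨⟨a', rfl⟩, h2, h3⟩ := h
    obtain ⟨c', rfl⟩ := hc h2
    obtain ⟨r', rfl⟩ := hr h3
    exact ⟨cons a' φ c' r', rfl⟩

/-- Every forest is of the form `σ.map a` for a finite tuple `a`. -/
theorem exists_fin (t : Frst A) : ∃ (k : ℕ) (σ : Frst (Fin k)) (a : Fin k → A), σ.map a = t := by
  obtain ⟨S, hS, ht⟩ := t.exists_finite
  have : Finite S := hS
  obtain ⟨k, ⟨e⟩⟩ := Finite.exists_equiv_fin S
  have hr : range (fun i => ((e.symm i : S) : A)) = S := by
    ext x
    constructor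
    · rintro ⟨i, rfl⟩
      exact (e.symm i).2
    · intro hx
      exact ⟨e ⟨x, hx⟩, by simp⟩
  obtain ⟨σ, hσ⟩ := exists_map_eq (f := fun i => ((e.symm i : S) : A)) (t := t) (by rw [hr]; exact ht)
  exact ⟨k, σ, _, hσ⟩

end Frst

/-! ## Values of names -/

/-- `LLevel` in terms of concrete formulas. -/
theorem mem_LLevel {α : Ordinal.{u}} {x : ZFSet.{u}} :
    x ∈ LLevel α ↔ ∃ β < α, x ∈ DefSubsets (LLevel β) := by
  rw [LLevel]
  simp

theorem LLevel_subset_vonNeumann (α : Ordinal.{u}) : ∀ x ∈ LLevel α, x ∈ ZFSet.vonNeumann α := by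
  induction α using WellFoundedLT.induction with
  | ind α ih =>
    intro x hx
    obtain ⟨β, hβ, hx⟩ := mem_LLevel.1 hx
    rw [ZFSet.mem_vonNeumann']
    exact ⟨β, hβ, fun y hy => ih β hβ y (hx.1 y hy)⟩

/-- The set `{x ∈ L_a : L_a ⊨ φ(x, l)}`. -/
noncomputable def nmval (a : Ordinal.{u}) (φ : Fml) (l : List ZFSet.{u}) : ZFSet.{u} :=
  ZFSet.sep (fun x => x ∈ LLevel a ∧ φ.Sat (LLevel a) (x :: l)) (ZFSet.vonNeumann a)

theorem mem_nmval {a : Ordinal.{u}} {φ : Fml} {l : List ZFSet.{u}} {x : ZFSet.{u}} :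
    x ∈ nmval a φ l ↔ x ∈ LLevel a ∧ φ.Sat (LLevel a) (x :: l) := by
  rw [nmval, ZFSet.mem_sep]
  constructor
  · exact fun h => h.2
  · exact fun h => ⟨LLevel_subset_vonNeumann a x h.1, h⟩

/-- The list of values of a forest of ordinals. -/
noncomputable def vals : Frst Ordinal.{u} → List ZFSet.{u}
  | .nil => []
  | .cons a φ c r => nmval a φ (vals c) :: vals r

/-- All labels are below `b`, hereditarily decreasing. -/
def Proper (b : Ordinal.{u}) : Frst Ordinal.{u} → Prop
  | .nil => True
  | .cons a _ c r => a < b ∧ Proper a c ∧ Proper b r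

@[simp] theorem vals_nil : vals (.nil : Frst Ordinal.{u}) = [] := rfl
@[simp] theorem vals_cons (a : Ordinal.{u}) (φ : Fml) (c r : Frst Ordinal.{u}) :
    vals (.cons a φ c r) = nmval a φ (vals c) :: vals r := rfl

theorem vals_app (s t : Frst Ordinal.{u}) : vals (s.app t) = vals s ++ vals t := by
  induction s with
  | nil => rfl
  | cons a φ c r hc hr => simp [Frst.app, hr]

theorem Proper.mono {a b : Ordinal.{u}} (h : a ≤ b) {t : Frst Ordinal.{u}} (ht : Proper a t) :
    Proper b t := by
  induction t with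
  | nil => trivial
  | cons x φ c r hc hr => exact ⟨ht.1.trans_le h, ht.2.1, hr ht.2.2⟩

theorem Proper.over {b : Ordinal.{u}} {t : Frst Ordinal.{u}} (ht : Proper b t) :
    t.Over (Iio b) := by
  induction t generalizing b with
  | nil => trivial
  | cons x φ c r hc hr =>
    exact ⟨ht.1, (hc ht.2.1).mono (Iio_subset_Iio ht.1.le), hr ht.2.2⟩

theorem proper_app {b : Ordinal.{u}} {s t : Frst Ordinal.{u}} :
    Proper b (s.app t) ↔ Proper b s ∧ Proper b t := by
  induction s with
  | nil => simp [Frst.app, Proper]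
  | cons a φ c r hc hr => simp [Frst.app, Proper, hr, and_assoc]

theorem LLevel_mono {α β : Ordinal.{u}} (h : α ≤ β) : LLevel α ⊆ LLevel β := by
  intro x hx
  obtain ⟨γ, hγ, hx⟩ := mem_LLevel.1 hx
  exact mem_LLevel.2 ⟨γ, hγ.trans_le h, hx⟩

theorem nmval_mem {a b : Ordinal.{u}} (h : a < b) {φ : Fml} {l : List ZFSet.{u}}
    (hl : ∀ x ∈ l, x ∈ LLevel a) : nmval a φ l ∈ LLevel b := by
  refine mem_LLevel.2 ⟨a, h, (mem_defSubsets_iff _ _).2 ⟨fun y hy => (mem_nmval.1 hy).1, φ, l, hl, ?_⟩⟩
  intro y hy
  rw [mem_nmval]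
  exact ⟨fun h => h.2, fun h => ⟨hy, h⟩⟩

theorem Proper.vals_mem {b : Ordinal.{u}} {t : Frst Ordinal.{u}} (ht : Proper b t) :
    ∀ x ∈ vals t, x ∈ LLevel b := by
  induction t generalizing b with
  | nil => simp
  | cons x φ c r hc hr =>
    intro y hy
    rw [vals_cons, List.mem_cons] at hy
    rcases hy with rfl | hy
    · exact nmval_mem ht.1 (hc ht.2.1)
    · exact hr ht.2.2 y hy

/-- Every element of `L_b` has a name with labels below `b`. -/
theorem exists_name {b : Ordinal.{u}} {x : ZFSet.{u}} (hx : x ∈ LLevel b) :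
    ∃ (a : Ordinal.{u}) (φ : Fml) (c : Frst Ordinal.{u}), a < b ∧ Proper a c ∧
      nmval a φ (vals c) = x := by
  induction b using WellFoundedLT.induction generalizing x with
  | ind b ih =>
    obtain ⟨a, hab, hx⟩ := mem_LLevel.1 hx
    obtain ⟨hxa, φ, p, hp, hφ⟩ := (mem_defSubsets_iff _ _).1 hx
    have key : ∀ p : List ZFSet.{u}, (∀ y ∈ p, y ∈ LLevel a) →
        ∃ c : Frst Ordinal.{u}, Proper a c ∧ vals c = p := by
      intro p
      induction p with
      | nil => exact fun _ => ⟨.nil, trivial, rfl⟩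
      | cons y p hp =>
        intro h
        obtain ⟨r, hr, hrp⟩ := hp fun z hz => h z (List.mem_cons_of_mem _ hz)
        obtain ⟨a', φ', c', h1, h2, h3⟩ := ih a hab (h y List.mem_cons_self)
        exact ⟨.cons a' φ' c' r, ⟨h1, h2, hr⟩, by rw [vals_cons, h3, hrp]⟩
    obtain ⟨c, hc, rfl⟩ := key p hp
    refine ⟨a, φ, c, hab, hc, ?_⟩
    ext y
    rw [mem_nmval]
    constructor
    · exact fun h => (hφ y h.1).2 h.2
    · exact fun h => ⟨hxa y h, (hφ y (hxa y h)).1 h⟩

/-! ## The truth relation -/

/-- Truth at level `θ` of `φ` for the sets named by a proper forest. -/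
def Tr (θ : Ordinal.{u}) (φ : Fml) (t : Frst Ordinal.{u}) : Prop :=
  Proper θ t ∧ φ.Sat (LLevel θ) (vals t)

end Pool.Agent.Helper43.KK
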