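import Pool.Agent.Lib.Helper43.KK.Realize3

/-!
# Order types of sets of ordinals
-/

set_option autoImplicit false

universe u v w

namespace Pool.Agent.Helper43.KK

open Set Ordinal Cardinal

/-- The order type of a bounded set of ordinals. -/
noncomputable def otp (S : Set Ordinal.{u}) : Ordinal.{u} :=
  sInf {γ | ∃ f : Ordinal.{u} → Ordinal.{u}, (∀ x ∈ S, ∀ y ∈ S, x < y → f x < f y) ∧
    ∀ x ∈ S, f x < γ}

theorem otp_spec {S : Set Ordinal.{u}} (hS : BddAbove S) :
    ∃ f : Ordinal.{u} → Ordinal.{u}, (∀ x ∈ S, ∀ y ∈ S, x < y → f x < f y) ∧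
      ∀ x ∈ S, f x < otp S := by
  have : (sInf {γ | ∃ f : Ordinal.{u} → Ordinal.{u}, (∀ x ∈ S, ∀ y ∈ S, x < y → f x < f y) ∧
    ∀ x ∈ S, f x < γ}) ∈ {γ | ∃ f : Ordinal.{u} → Ordinal.{u},
      (∀ x ∈ S, ∀ y ∈ S, x < y → f x < f y) ∧ ∀ x ∈ S, f x < γ} := by
    apply csInf_mem
    obtain ⟨b, hb⟩ := hS
    exact ⟨Order.succ b, id, fun x _ y _ h => h, fun x hx => Order.lt_succ_of_le (hb hx)⟩
  exact this

theorem otp_le {S : Set Ordinal.{u}} {γ : Ordinal.{u}} (f : Ordinal.{u} → Ordinal.{u})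
    (h1 : ∀ x ∈ S, ∀ y ∈ S, x < y → f x < f y) (h2 : ∀ x ∈ S, f x < γ) : otp S ≤ γ :=
  csInf_le' ⟨f, h1, h2⟩

theorem otp_le_of_map {S T : Set Ordinal.{u}} (hT : BddAbove T) (f : Ordinal.{u} → Ordinal.{u})
    (h1 : ∀ x ∈ S, ∀ y ∈ S, x < y → f x < f y) (h2 : ∀ x ∈ S, f x ∈ T) : otp S ≤ otp T := by
  obtain ⟨g, hg1, hg2⟩ := otp_spec hT
  exact otp_le (fun x => g (f x)) (fun x hx y hy h => hg1 _ (h2 x hx) _ (h2 y hy) (h1 x hx y hy h))
    fun x hx => hg2 _ (h2 x hx)

theorem otp_mono {S T : Set Ordinal.{u}} (hT : BddAbove T) (h : S ⊆ T) : otp S ≤ otp T :=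
  otp_le_of_map hT id (fun _ _ _ _ h => h) h

theorem le_otp {S : Set Ordinal.{u}} (hS : BddAbove S) {δ : Ordinal.{u}}
    (f : Ordinal.{u} → Ordinal.{u}) (h1 : ∀ x < δ, ∀ y < δ, x < y → f x < f y)
    (h2 : ∀ x < δ, f x ∈ S) : δ ≤ otp S := by
  obtain ⟨g, hg1, hg2⟩ := otp_spec hS
  by_contra hn
  rw [not_le] at hn
  have key : ∀ x < δ, x ≤ g (f x) := by
    intro x
    induction x using WellFoundedLT.induction with
    | ind x ih =>
      intro hx
      by_contra hlt
      rw [not_le] at hlt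
      have h3 := ih _ hlt (hlt.trans hx)
      have h4 := hg1 _ (h2 _ (hlt.trans hx)) _ (h2 x hx) (h1 _ (hlt.trans hx) x hx hlt)
      exact absurd h3 (not_le.2 h4)
  exact absurd (key _ hn) (not_le.2 (hg2 _ (h2 _ hn)))

theorem bddAbove_range' {T : Type u} (h : T → Ordinal.{u}) : BddAbove (range h) :=
  Ordinal.bddAbove_of_small

theorem card_otp_le {T : Type u} (h : T → Ordinal.{u}) : (otp (range h)).card ≤ #T := by
  let r : T → T → Prop := fun a b => h a < h b
  have wf : WellFounded r := InvImage.wf h wellFounded_lt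
  have inst : IsWellFounded T r := ⟨wf⟩
  let γ : Ordinal.{u} := ⨆ t : T, Order.succ (IsWellFounded.rank r t)
  have hγ : ∀ o < γ, o ∈ range (IsWellFounded.rank r) := by
    intro o ho
    obtain ⟨t, ht⟩ := (Ordinal.lt_iSup_iff).1 ho
    exact IsWellFounded.mem_range_rank_of_le (Order.lt_succ_iff.1 ht)
  have h1 : otp (range h) ≤ γ := by
    have heq : ∀ s t : T, h s = h t → IsWellFounded.rank r s = IsWellFounded.rank r t := by
      intro s t hst
      rw [IsWellFounded.rank_eq r s, IsWellFounded.rank_eq r t]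
      have : (fun b => r b s) = fun b => r b t := by
        funext b
        simp only [r, hst]
      have h3 : ∀ P Q : T → Prop, P = Q → (⨆ b : {b // P b}, Order.succ (IsWellFounded.rank r b.1)) =
          ⨆ b : {b // Q b}, Order.succ (IsWellFounded.rank r b.1) := by
        rintro P Q rfl
        rfl
      exact h3 _ _ this
    classical
    refine otp_le (fun x => if hx : ∃ t, h t = x then IsWellFounded.rank r hx.choose else 0) ?_ ?_
    · rintro x ⟨s, rfl⟩ y ⟨t, rfl⟩ hlt
      have hs : ∃ t, h t = h s := ⟨s, rfl⟩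
      have ht : ∃ t', h t' = h t := ⟨t, rfl⟩
      rw [dif_pos hs, dif_pos ht, heq _ _ hs.choose_spec, heq _ _ ht.choose_spec]
      exact IsWellFounded.rank_lt_of_rel hlt
    · rintro x ⟨s, rfl⟩
      have hs : ∃ t, h t = h s := ⟨s, rfl⟩
      rw [dif_pos hs, heq _ _ hs.choose_spec]
      exact (Order.lt_succ _).trans_le
        (Ordinal.le_iSup (fun t : T => Order.succ (IsWellFounded.rank r t)) s)
  refine (Ordinal.card_le_card h1).trans ?_
  have h2 : Cardinal.lift.{u + 1} γ.card ≤ Cardinal.lift.{u + 1} #T := by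
    rw [← Cardinal.mk_Iio_ordinal]
    have h3 : #(Iio γ) ≤ #(range (IsWellFounded.rank r)) := Cardinal.mk_le_mk_of_subset hγ
    refine h3.trans ?_
    have := Cardinal.mk_range_le_lift (f := (IsWellFounded.rank r : T → Ordinal.{u}))
    rwa [Cardinal.lift_id'.{u, u + 1}] at this
  exact Cardinal.lift_le.1 h2

/-- The order type only depends on the order. -/
theorem otp_range_eq {T : Type u} {h h' : T → Ordinal.{u}}
    (hh : ∀ s t, h s < h t ↔ h' s < h' t) : otp (range h) = otp (range h') := by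
  classical
  have key : ∀ h h' : T → Ordinal.{u}, (∀ s t, h s < h t ↔ h' s < h' t) →
      otp (range h) ≤ otp (range h') := by
    intro h h' hh
    refine otp_le_of_map (bddAbove_range' h')
      (fun x => if hx : ∃ t, h t = x then h' hx.choose else 0) ?_ ?_
    · rintro x ⟨s, rfl⟩ y ⟨t, rfl⟩ hlt
      have hs : ∃ t, h t = h s := ⟨s, rfl⟩
      have ht : ∃ t', h t' = h t := ⟨t, rfl⟩
      rw [dif_pos hs, dif_pos ht, ← hh, hs.choose_spec, ht.choose_spec]
      exact hlt
    · rintro x ⟨s, rfl⟩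
      have hs : ∃ t, h t = h s := ⟨s, rfl⟩
      rw [dif_pos hs]
      exact mem_range_self _
  exact le_antisymm (key h h' hh) (key h' h fun s t => (hh s t).symm)

end Pool.Agent.Helper43.KK
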