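import Pool.Agent.Lib.Helper43.KK.Hull

/-!
# Realization of countably consistent diagrams
-/

set_option autoImplicit false

universe u v w

namespace Pool.Agent.Helper43.KK

open Set Ordinal

/-! ## Facts -/

/-- Atomic facts about terms. -/
inductive Fact (V : Type u) : Type u
  | lt (s t : Tm V) : Fact V
  | tr (θ : Tm V) (φ : Fml) (t : Frst (Tm V)) : Fact V

variable {V : Type u}

/-- All variables of a fact lie in `W`. -/
def Fact.Over (W : Set V) : Fact V → Prop
  | .lt s t => VIn W s ∧ VIn W t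
  | .tr θ _ t => VIn W θ ∧ t.Over {s | VIn W s}

/-- Truth of a fact under an assignment. -/
def Holds (e : V → Ordinal.{u}) : Fact V → Prop
  | .lt s t => ev e s < ev e t
  | .tr θ φ t => Tr (ev e θ) φ (t.map (ev e))

/-- The diagram `g` agrees with the assignment `e` on facts over `W`. -/
def Good (g : Set (Fact V)) (W : Set V) (e : V → Ordinal.{u}) : Prop :=
  ∀ f : Fact V, f.Over W → (f ∈ g ↔ Holds e f)

/-! ## Elementary facts about truth of small formulas -/

theorem tr_eq_iff {θ a a' : Ordinal.{u}} {ψ ψ' : Fml} {c c' : Frst Ordinal.{u}} :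
    Tr θ (.eq 0 1) (.cons a ψ c (.cons a' ψ' c' .nil)) ↔
      a < θ ∧ Proper a c ∧ a' < θ ∧ Proper a' c' ∧ nmval a ψ (vals c) = nmval a' ψ' (vals c') := by
  simp only [Tr, Proper, Fml.Sat, vals_cons, vals_nil, List.getElem?_cons_zero,
    List.getElem?_cons_succ, Option.some.injEq]
  constructor
  · rintro ⟨⟨h1, h2, h3, h4, -⟩, x, h5, h6⟩
    exact ⟨h1, h2, h3, h4, h5.trans h6.symm⟩
  · rintro ⟨h1, h2, h3, h4, h5⟩
    exact ⟨⟨h1, h2, h3, h4, trivial⟩, _, h5, rfl⟩

theorem tr_mem_iff {θ a a' : Ordinal.{u}} {ψ ψ' : Fml} {c c' : Frst Ordinal.{u}} :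
    Tr θ (.mem 0 1) (.cons a ψ c (.cons a' ψ' c' .nil)) ↔
      a < θ ∧ Proper a c ∧ a' < θ ∧ Proper a' c' ∧ nmval a ψ (vals c) ∈ nmval a' ψ' (vals c') := by
  simp only [Tr, Proper, Fml.Sat, vals_cons, vals_nil, List.getElem?_cons_zero,
    List.getElem?_cons_succ, Option.some.injEq]
  constructor
  · rintro ⟨⟨h1, h2, h3, h4, -⟩, x, y, h5, h6, h7⟩
    exact ⟨h1, h2, h3, h4, by rw [h5, h6]; exact h7⟩
  · rintro ⟨h1, h2, h3, h4, h5⟩
    exact ⟨⟨h1, h2, h3, h4, trivial⟩, _, _, rfl, rfl, h5⟩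

theorem tr_cons_iff {a b : Ordinal.{u}} {ψ χ : Fml} {c d : Frst Ordinal.{u}} :
    Tr a ψ (.cons b χ d c) ↔ b < a ∧ Proper b d ∧ Proper a c ∧
      nmval b χ (vals d) ∈ nmval a ψ (vals c) := by
  simp only [Tr, Proper, vals_cons, mem_nmval]
  constructor
  · rintro ⟨⟨h1, h2, h3⟩, h4⟩
    exact ⟨h1, h2, h3, nmval_mem h1 h2.vals_mem, h4⟩
  · rintro ⟨h1, h2, h3, h4, h5⟩
    exact ⟨⟨h1, h2, h3⟩, h5⟩

/-- If some element of `L_a` (given by a name) equals `x ∈ L_b`... -/
theorem exists_name_tr {a : Ordinal.{u}} {ψ : Fml} {c : Frst Ordinal.{u}} (hc : Proper a c)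
    {x : ZFSet.{u}} (hx : x ∈ nmval a ψ (vals c)) :
    ∃ (b : Ordinal.{u}) (χ : Fml) (d : Frst Ordinal.{u}), b < a ∧ Proper b d ∧
      nmval b χ (vals d) = x ∧ Tr a ψ (.cons b χ d c) := by
  obtain ⟨b, χ, d, h1, h2, h3⟩ := exists_name (mem_nmval.1 hx).1
  exact ⟨b, χ, d, h1, h2, h3, tr_cons_iff.2 ⟨h1, h2, hc, by rw [h3]; exact hx⟩⟩

/-! ## Countably consistent diagrams -/

/-- The diagram is countably consistent. -/
def Cons (g : Set (Fact V)) : Prop :=
  ∀ W : Set V, W.Countable → ∃ e : V → Ordinal.{u}, Good g W e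

theorem Cons.exists_good {g : Set (Fact V)} (h : Cons g) {S : Set (Tm V)} (hS : S.Countable) :
    ∃ (W : Set V) (e : V → Ordinal.{u}), (∀ s ∈ S, VIn W s) ∧ Good g W e := by
  choose F hF1 hF2 using fun s : Tm V => exists_finite_vIn s
  obtain ⟨e, he⟩ := h (⋃ s ∈ S, F s) (hS.biUnion fun s _ => (hF1 s).countable)
  exact ⟨_, e, fun s hs => (hF2 s).mono (subset_biUnion_of_mem (u := F) hs), he⟩

/-- The order relation of the diagram. -/
def LtR (g : Set (Fact V)) (s t : Tm V) : Prop := Fact.lt s t ∈ g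

theorem Good.lt_iff {g : Set (Fact V)} {W : Set V} {e : V → Ordinal.{u}} (h : Good g W e)
    {s t : Tm V} (hs : VIn W s) (ht : VIn W t) : LtR g s t ↔ ev e s < ev e t :=
  h (.lt s t) ⟨hs, ht⟩

theorem Good.tr_iff {g : Set (Fact V)} {W : Set V} {e : V → Ordinal.{u}} (h : Good g W e)
    {θ : Tm V} {φ : Fml} {t : Frst (Tm V)} (hs : VIn W θ) (ht : t.Over {s | VIn W s}) :
    Fact.tr θ φ t ∈ g ↔ Tr (ev e θ) φ (t.map (ev e)) :=
  h (.tr θ φ t) ⟨hs, ht⟩

theorem Cons.wf {g : Set (Fact V)} (h : Cons g) : WellFounded (LtR g) := by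
  rw [wellFounded_iff_isEmpty_descending_chain]
  refine ⟨fun ⟨s, hs⟩ => ?_⟩
  obtain ⟨W, e, hW, he⟩ := h.exists_good (countable_range s)
  have : ∀ n, ev e (s (n + 1)) < ev e (s n) := fun n =>
    (he.lt_iff (hW _ (mem_range_self _)) (hW _ (mem_range_self _))).1 (hs n)
  exact (wellFounded_iff_isEmpty_descending_chain.1
    (wellFounded_lt (α := Ordinal.{u}))).elim ⟨fun n => ev e (s n), this⟩

/-- The collapse of the diagram. -/
noncomputable def rk {g : Set (Fact V)} (h : Cons g) (s : Tm V) : Ordinal.{u} :=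
  @IsWellFounded.rank _ (LtR g) ⟨h.wf⟩ s

section

variable {g : Set (Fact V)} (h : Cons g)

include h

theorem rk_lt_iff {s t : Tm V} : rk h s < rk h t ↔ LtR g s t := by
  have inst : IsWellFounded _ (LtR g) := ⟨h.wf⟩
  constructor
  · intro hlt
    by_contra hn
    refine absurd hlt (not_lt.2 ?_)
    unfold rk
    rw [IsWellFounded.rank_eq (LtR g) t]
    refine Ordinal.iSup_le fun b => Order.succ_le_of_lt (IsWellFounded.rank_lt_of_rel ?_)
    obtain ⟨b, hb⟩ := b
    obtain ⟨W, e, hW, he⟩ := h.exists_good (S := {s, t, b}) (by simp)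
    simp only [mem_insert_iff, mem_singleton_iff, forall_eq_or_imp, forall_eq] at hW
    rw [he.lt_iff hW.1 hW.2.1, not_lt] at hn
    rw [he.lt_iff hW.2.2 hW.2.1] at hb
    exact (he.lt_iff hW.2.2 hW.1).2 (hb.trans_le hn)
  · exact fun hlt => IsWellFounded.rank_lt_of_rel hlt

theorem exists_rk_eq {s : Tm V} {o : Ordinal.{u}} (ho : o ≤ rk h s) : ∃ t, rk h t = o := by
  have inst : IsWellFounded _ (LtR g) := ⟨h.wf⟩
  exact IsWellFounded.mem_range_rank_of_le ho

theorem Good.rk_lt_iff {W : Set V} {e : V → Ordinal.{u}} (he : Good g W e) {s t : Tm V}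
    (hs : VIn W s) (ht : VIn W t) : rk h s < rk h t ↔ ev e s < ev e t := by
  rw [KK.rk_lt_iff, he.lt_iff hs ht]

theorem Good.rk_eq_iff {W : Set V} {e : V → Ordinal.{u}} (he : Good g W e) {s t : Tm V}
    (hs : VIn W s) (ht : VIn W t) : rk h s = rk h t ↔ ev e s = ev e t := by
  have h1 := he.rk_lt_iff h hs ht
  have h2 := he.rk_lt_iff h ht hs
  constructor
  · intro hh
    rw [hh, lt_self_iff_false, false_iff, not_lt] at h1
    rw [hh, lt_self_iff_false, false_iff, not_lt] at h2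
    exact le_antisymm h2 h1
  · intro hh
    rw [hh, lt_self_iff_false, iff_false, not_lt] at h1
    rw [hh, lt_self_iff_false, iff_false, not_lt] at h2
    exact le_antisymm h2 h1

theorem Good.proper_iff {W : Set V} {e : V → Ordinal.{u}} (he : Good g W e) {b : Tm V}
    {c : Frst (Tm V)} (hb : VIn W b) (hc : c.Over {s | VIn W s}) :
    Proper (rk h b) (c.map (rk h)) ↔ Proper (ev e b) (c.map (ev e)) := by
  induction c generalizing b with
  | nil => simp [Proper]
  | cons a φ c r ihc ihr =>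
    simp only [Frst.map_cons, Proper]
    rw [he.rk_lt_iff h hc.1 hb, ihc hc.1 hc.2.1, ihr hb hc.2.2]

/-- Names over the ordinals below the rank of a term lift to terms. -/
theorem lift_name {θ : Tm V} {b' : Ordinal.{u}} {c' : Frst Ordinal.{u}} (hb : b' < rk h θ)
    (hc : Proper b' c') : ∃ (b : Tm V) (c : Frst (Tm V)), rk h b = b' ∧ c.map (rk h) = c' := by
  obtain ⟨b, rfl⟩ := exists_rk_eq h hb.le
  obtain ⟨c, rfl⟩ := Frst.exists_map_eq (f := rk h) (t := c')
    (hc.over.mono fun o ho => exists_rk_eq h (le_of_lt ho))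
  exact ⟨b, c, rfl, rfl⟩

end

end Pool.Agent.Helper43.KK
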