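import Pool.Agent.Lib.Helper43.KK.Realize

/-!
# Realization of countably consistent diagrams: the collapse is a model
-/

set_option autoImplicit false

universe u v w

namespace Pool.Agent.Helper43.KK

open Set Ordinal

variable {V : Type u} {g : Set (Fact V)} (h : Cons g)

/-- The truth transfer at level `θ`. -/
def PTr (θ : Tm V) : Prop :=
  ∀ φ t, Fact.tr θ φ t ∈ g ↔ Tr (rk h θ) φ (t.map (rk h))

/-- The equality transfer at level `θ` for two names. -/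
def PEq (θ : Tm V) (b : Tm V) (ψ : Fml) (c : Frst (Tm V)) (b' : Tm V) (ψ' : Fml)
    (c' : Frst (Tm V)) : Prop :=
  Fact.tr θ (.eq 0 1) (.cons b ψ c (.cons b' ψ' c' .nil)) ∈ g ↔
    nmval (rk h b) ψ (vals (c.map (rk h))) = nmval (rk h b') ψ' (vals (c'.map (rk h)))

include h in
theorem exists_over (l : List (Tm V)) (l' : List (Frst (Tm V))) :
    ∃ (W : Set V) (e : V → Ordinal.{u}), (∀ s ∈ l, VIn W s) ∧
      (∀ t ∈ l', t.Over {s | VIn W s}) ∧ Good g W e := by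
  choose F hF1 hF2 using fun t : Frst (Tm V) => t.exists_finite
  obtain ⟨W, e, h1, h2⟩ := h.exists_good (S := {s | s ∈ l} ∪ ⋃ t ∈ {t | t ∈ l'}, F t)
    ((List.finite_toSet l).countable.union
      ((List.finite_toSet l').countable.biUnion fun t _ => (hF1 t).countable))
  refine ⟨W, e, fun s hs => h1 s (Or.inl hs), fun t ht => ?_, h2⟩
  exact (hF2 t).mono fun s hs => h1 s (Or.inr (mem_biUnion (x := t) ht hs))

/-- Equality half 1. -/
theorem eq_sub {θ : Tm V} {x y : Tm V} {ψx ψy : Fml} {cx cy : Frst (Tm V)}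
    (hPx : PTr h x) (hPy : PTr h y)
    (hx : rk h x < rk h θ) (hy : rk h y < rk h θ)
    (pcx : Proper (rk h x) (cx.map (rk h))) (pcy : Proper (rk h y) (cy.map (rk h)))
    (hE : ∀ (b : Tm V) (ψ : Fml) (c : Frst (Tm V)) (b' : Tm V) (ψ' : Fml) (c' : Frst (Tm V)),
      rk h b < rk h y → rk h b' < rk h x → Proper (rk h b) (c.map (rk h)) →
      Proper (rk h b') (c'.map (rk h)) → PEq h θ b ψ c b' ψ' c')
    (heq : Fact.tr θ (.eq 0 1) (.cons x ψx cx (.cons y ψy cy .nil)) ∈ g) :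
    nmval (rk h x) ψx (vals (cx.map (rk h))) ⊆ nmval (rk h y) ψy (vals (cy.map (rk h))) := by
  intro z' hz'
  obtain ⟨b1, χ, d1, hb1, pd1, rfl, htr⟩ := exists_name_tr pcx hz'
  obtain ⟨z, dz, rfl, rfl⟩ := lift_name h hb1 pd1
  have hF : Fact.tr x ψx (.cons z χ dz cx) ∈ g := (hPx _ _).2 htr
  obtain ⟨W, e, hW, hWl, he⟩ := exists_over h [θ, x, y, z] [cx, cy, dz]
  simp only [List.mem_cons, List.not_mem_nil, or_false, forall_eq_or_imp, forall_eq] at hW hWl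
  obtain ⟨oθ, ox, oy, oz⟩ := hW
  obtain ⟨ocx, ocy, odz⟩ := hWl
  have heq' := (he.tr_iff oθ (t := .cons x ψx cx (.cons y ψy cy .nil))
    ⟨ox, ocx, oy, ocy, trivial⟩).1 heq
  obtain ⟨-, -, -, pcy', heq'⟩ := tr_eq_iff.1 heq'
  have h1 := tr_cons_iff.1 ((he.tr_iff ox (t := .cons z χ dz cx) ⟨oz, odz, ocx⟩).1 hF)
  have h2 := h1.2.2.2
  rw [heq'] at h2
  obtain ⟨b2, χ2, d2, hb2, pd2, h3, -⟩ := exists_name_tr pcy' h2
  have pz : ev e z < ev e θ := (he.rk_lt_iff h oz oθ).1 (hb1.trans hx)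
  have h4 : Tr (ev e θ) (.eq 0 1) (.cons b2 χ2 d2 ((Frst.cons z χ dz .nil).map (ev e))) := by
    rw [Frst.map_cons, Frst.map_nil, tr_eq_iff]
    exact ⟨hb2.trans ((he.rk_lt_iff h oy oθ).1 hy), pd2, pz, h1.2.1, h3⟩
  obtain ⟨w, c, ow, oc, hw, pc, h5⟩ := exists_term_wit e oθ oy
    (t := .cons z χ dz .nil) ⟨oz, odz, trivial⟩ hb2 pd2 h4
  have h6 : Fact.tr θ (.eq 0 1) (.cons w χ2 c (.cons z χ dz .nil)) ∈ g :=
    (he.tr_iff oθ (t := .cons w χ2 c (.cons z χ dz .nil)) ⟨ow, oc, oz, odz, trivial⟩).2 h5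
  have hw' : rk h w < rk h y := (he.rk_lt_iff h ow oy).2 hw
  have pc' : Proper (rk h w) (c.map (rk h)) := (he.proper_iff h ow oc).2 pc
  have h7 := (hE w χ2 c z χ dz hw' hb1 pc' pd1).1 h6
  rw [← h7]
  have h8 : Tr (ev e y) ψy ((Frst.cons w χ2 c cy).map (ev e)) := by
    rw [Frst.map_cons, tr_cons_iff]
    refine ⟨hw, pc, pcy', ?_⟩
    rw [Frst.map_cons, Frst.map_cons, Frst.map_nil, tr_eq_iff] at h5
    rw [h5.2.2.2.2]
    exact h2
  have h9 := (hPy _ _).1 ((he.tr_iff oy (t := .cons w χ2 c cy) ⟨ow, oc, ocy⟩).2 h8)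
  rw [Frst.map_cons, tr_cons_iff] at h9
  exact h9.2.2.2

/-- Equality half 2. -/
theorem eq_sub' {θ : Tm V} {x y : Tm V} {ψx ψy : Fml} {cx cy : Frst (Tm V)}
    (hPx : PTr h x) (hPy : PTr h y)
    (hx : rk h x < rk h θ) (hy : rk h y < rk h θ)
    (pcx : Proper (rk h x) (cx.map (rk h))) (pcy : Proper (rk h y) (cy.map (rk h)))
    (hE : ∀ (b : Tm V) (ψ : Fml) (c : Frst (Tm V)) (b' : Tm V) (ψ' : Fml) (c' : Frst (Tm V)),
      rk h b < rk h y → rk h b' < rk h x → Proper (rk h b) (c.map (rk h)) →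
      Proper (rk h b') (c'.map (rk h)) → PEq h θ b ψ c b' ψ' c')
    (hsub : nmval (rk h x) ψx (vals (cx.map (rk h))) ⊆ nmval (rk h y) ψy (vals (cy.map (rk h))))
    {W : Set V} {e : V → Ordinal.{u}} (he : Good g W e) (oθ : VIn W θ) (ox : VIn W x)
    (oy : VIn W y) (ocx : cx.Over {s | VIn W s}) (ocy : cy.Over {s | VIn W s}) :
    nmval (ev e x) ψx (vals (cx.map (ev e))) ⊆ nmval (ev e y) ψy (vals (cy.map (ev e))) := by
  intro z' hz'
  by_contra hn
  have pcx' : Proper (ev e x) (cx.map (ev e)) := (he.proper_iff h ox ocx).1 pcx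
  have pcy' : Proper (ev e y) (cy.map (ev e)) := (he.proper_iff h oy ocy).1 pcy
  obtain ⟨b1, χ, d1, hb1, pd1, rfl, -⟩ := exists_name_tr pcx' hz'
  have hxθ : ev e x < ev e θ := (he.rk_lt_iff h ox oθ).1 hx
  have hyθ : ev e y < ev e θ := (he.rk_lt_iff h oy oθ).1 hy
  -- the witness formula
  have key : ∀ b χ d, b < ev e x → Proper b d →
      (Tr (ev e θ) (.and (.mem 0 1) (.neg (.mem 0 2)))
        (.cons b χ d ((Frst.cons x ψx cx (.cons y ψy cy .nil)).map (ev e))) ↔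
      nmval b χ (vals d) ∈ nmval (ev e x) ψx (vals (cx.map (ev e))) ∧
      nmval b χ (vals d) ∉ nmval (ev e y) ψy (vals (cy.map (ev e)))) := by
    intro b χ d hb pd
    simp only [Tr, Frst.map_cons, Frst.map_nil, Proper, Fml.Sat, vals_cons, vals_nil,
      List.getElem?_cons_zero, List.getElem?_cons_succ, Option.some.injEq]
    constructor
    · rintro ⟨-, ⟨x1, y1, rfl, rfl, h1⟩, h2⟩
      exact ⟨h1, fun h3 => h2 ⟨_, _, rfl, rfl, h3⟩⟩
    · rintro ⟨h1, h2⟩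
      exact ⟨⟨hb.trans hxθ, pd, hxθ, pcx', hyθ, pcy', trivial⟩, ⟨_, _, rfl, rfl, h1⟩,
        fun ⟨_, _, h3, h4, h5⟩ => h2 (by rw [h3, h4]; exact h5)⟩
  obtain ⟨z, dz, oz, odz, hz, pz, h5⟩ := exists_term_wit e oθ ox
    (t := .cons x ψx cx (.cons y ψy cy .nil)) ⟨ox, ocx, oy, ocy, trivial⟩ hb1 pd1
    ((key b1 χ d1 hb1 pd1).2 ⟨hz', hn⟩)
  rw [Frst.map_cons] at h5
  obtain ⟨h6, h7⟩ := (key _ _ _ hz pz).1 h5
  apply h7
  have h8 : Fact.tr x ψx (.cons z χ dz cx) ∈ g :=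
    (he.tr_iff ox (t := .cons z χ dz cx) ⟨oz, odz, ocx⟩).2
      (by rw [Frst.map_cons]; exact tr_cons_iff.2 ⟨hz, pz, pcx', h6⟩)
  have h9 := (hPx _ _).1 h8
  rw [Frst.map_cons, tr_cons_iff] at h9
  obtain ⟨rz, pz', -, h9⟩ := h9
  have h10 := hsub h9
  obtain ⟨b2, χ2, d2, hb2, pd2, h11, h12⟩ := exists_name_tr pcy h10
  obtain ⟨w, dw, rfl, rfl⟩ := lift_name h hb2 pd2
  have h13 : Fact.tr y ψy (.cons w χ2 dw cy) ∈ g := (hPy _ _).2 h12
  have h14 : Fact.tr θ (.eq 0 1) (.cons w χ2 dw (.cons z χ dz .nil)) ∈ g :=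
    (hE w χ2 dw z χ dz hb2 rz pd2 pz').2 h11
  obtain ⟨W', e', hW, hWl, he'⟩ := exists_over h [θ, x, y, z, w] [cx, cy, dz, dw]
  simp only [List.mem_cons, List.not_mem_nil, or_false, forall_eq_or_imp, forall_eq] at hW hWl
  obtain ⟨oθ', ox', oy', oz', ow'⟩ := hW
  obtain ⟨ocx', ocy', odz', odw'⟩ := hWl
  have h15 := tr_eq_iff.1 ((he'.tr_iff oθ' (t := .cons w χ2 dw (.cons z χ dz .nil))
    ⟨ow', odw', oz', odz', trivial⟩).1 h14)
  have h16 := tr_cons_iff.1 ((he'.tr_iff oy' (t := .cons w χ2 dw cy) ⟨ow', odw', ocy'⟩).1 h13)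
  have h17 : Fact.tr θ (.mem 0 1) (.cons z χ dz (.cons y ψy cy .nil)) ∈ g := by
    refine (he'.tr_iff oθ' (t := .cons z χ dz (.cons y ψy cy .nil))
      ⟨oz', odz', oy', ocy', trivial⟩).2 ?_
    rw [Frst.map_cons, Frst.map_cons, Frst.map_nil, tr_mem_iff]
    refine ⟨h15.2.2.1, h15.2.2.2.1, (he'.rk_lt_iff h oy' oθ').1 hy, h16.2.2.1, ?_⟩
    rw [← h15.2.2.2.2]
    exact h16.2.2.2
  have h18 := (he.tr_iff oθ (t := .cons z χ dz (.cons y ψy cy .nil))
      ⟨oz, odz, oy, ocy, trivial⟩).1 h17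
  rw [Frst.map_cons, Frst.map_cons, Frst.map_nil, tr_mem_iff] at h18
  exact h18.2.2.2.2

/-- The equality transfer. -/
theorem pEq_of {θ : Tm V} (hP : ∀ θ', rk h θ' < rk h θ → PTr h θ') (μ : Ordinal.{u}) :
    ∀ (x : Tm V) (ψx : Fml) (cx : Frst (Tm V)) (y : Tm V) (ψy : Fml) (cy : Frst (Tm V)),
      max (rk h x) (rk h y) ≤ μ → rk h x < rk h θ → rk h y < rk h θ →
      Proper (rk h x) (cx.map (rk h)) → Proper (rk h y) (cy.map (rk h)) →
      PEq h θ x ψx cx y ψy cy := by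
  induction μ using WellFoundedLT.induction with
  | ind μ ih =>
    intro x ψx cx y ψy cy hμ hx hy pcx pcy
    have hE : ∀ (b : Tm V) (ψ : Fml) (c : Frst (Tm V)) (b' : Tm V) (ψ' : Fml) (c' : Frst (Tm V)),
        rk h b < rk h y → rk h b' < rk h x → Proper (rk h b) (c.map (rk h)) →
        Proper (rk h b') (c'.map (rk h)) → PEq h θ b ψ c b' ψ' c' := by
      intro b ψ c b' ψ' c' h1 h2 h3 h4
      refine ih (max (rk h b) (rk h b')) (lt_of_lt_of_le ?_ hμ) b ψ c b' ψ' c' le_rfl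
        (h1.trans hy) (h2.trans hx) h3 h4
      rw [max_comm (rk h x)]
      exact max_lt_max h1 h2
    have hE' : ∀ (b : Tm V) (ψ : Fml) (c : Frst (Tm V)) (b' : Tm V) (ψ' : Fml)
        (c' : Frst (Tm V)),
        rk h b < rk h x → rk h b' < rk h y → Proper (rk h b) (c.map (rk h)) →
        Proper (rk h b') (c'.map (rk h)) → PEq h θ b ψ c b' ψ' c' := by
      intro b ψ c b' ψ' c' h1 h2 h3 h4
      refine ih (max (rk h b) (rk h b')) (lt_of_lt_of_le ?_ hμ) b ψ c b' ψ' c' le_rfl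
        (h1.trans hx) (h2.trans hy) h3 h4
      exact max_lt_max h1 h2
    obtain ⟨W, e, hW, hWl, he⟩ := exists_over h [θ, x, y] [cx, cy]
    simp only [List.mem_cons, List.not_mem_nil, or_false, forall_eq_or_imp, forall_eq] at hW hWl
    obtain ⟨oθ, ox, oy⟩ := hW
    obtain ⟨ocx, ocy⟩ := hWl
    have hPx := hP x hx
    have hPy := hP y hy
    have pcx' : Proper (ev e x) (cx.map (ev e)) := (he.proper_iff h ox ocx).1 pcx
    have pcy' : Proper (ev e y) (cy.map (ev e)) := (he.proper_iff h oy ocy).1 pcy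
    constructor
    · intro heq
      have heq' : Fact.tr θ (.eq 0 1) (.cons y ψy cy (.cons x ψx cx .nil)) ∈ g := by
        refine (he.tr_iff oθ (t := .cons y ψy cy (.cons x ψx cx .nil))
          ⟨oy, ocy, ox, ocx, trivial⟩).2 ?_
        have := (he.tr_iff oθ (t := .cons x ψx cx (.cons y ψy cy .nil))
          ⟨ox, ocx, oy, ocy, trivial⟩).1 heq
        rw [Frst.map_cons, Frst.map_cons, Frst.map_nil, tr_eq_iff] at this ⊢
        exact ⟨this.2.2.1, this.2.2.2.1, this.1, this.2.1, this.2.2.2.2.symm⟩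
      apply ZFSet.ext
      intro z
      exact ⟨fun hz => eq_sub h hPx hPy hx hy pcx pcy hE heq hz,
        fun hz => eq_sub h hPy hPx hy hx pcy pcx hE' heq' hz⟩
    · intro heq
      refine (he.tr_iff oθ (t := .cons x ψx cx (.cons y ψy cy .nil))
        ⟨ox, ocx, oy, ocy, trivial⟩).2 ?_
      rw [Frst.map_cons, Frst.map_cons, Frst.map_nil, tr_eq_iff]
      refine ⟨(he.rk_lt_iff h ox oθ).1 hx, pcx', (he.rk_lt_iff h oy oθ).1 hy, pcy', ?_⟩
      apply ZFSet.ext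
      intro z
      exact ⟨fun hz => eq_sub' h hPx hPy hx hy pcx pcy hE (by rw [heq]) he oθ ox oy ocx ocy hz,
        fun hz => eq_sub' h hPy hPx hy hx pcy pcx hE' (by rw [heq]) he oθ oy ox ocy ocx hz⟩

end Pool.Agent.Helper43.KK
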