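import Pool.Agent.Lib.Helper43.KK.Realize2

/-!
# Realization of countably consistent diagrams: conclusion
-/

set_option autoImplicit false

universe u v w

namespace Pool.Agent.Helper43.KK

open Set Ordinal

/-! ## Extracting names from forests -/

/-- The `i`-th name of a forest. -/
def Frst.get? {A : Type v} : Frst A → ℕ → Option (A × Fml × Frst A)
  | .nil, _ => none
  | .cons a φ c _, 0 => some (a, φ, c)
  | .cons _ _ _ r, (i + 1) => r.get? i

theorem vals_get? (t : Frst Ordinal.{u}) (i : ℕ) :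
    (vals t)[i]? = (t.get? i).map (fun x => nmval x.1 x.2.1 (vals x.2.2)) := by
  induction t generalizing i with
  | nil => rfl
  | cons a φ c r _ ihr =>
    cases i with
    | zero => rfl
    | succ i =>
      rw [vals_cons, List.getElem?_cons_succ]
      exact ihr i

theorem Frst.map_get? {A : Type v} {B : Type w} (f : A → B) (t : Frst A) (i : ℕ) :
    (t.map f).get? i = (t.get? i).map (fun x => (f x.1, x.2.1, x.2.2.map f)) := by
  induction t generalizing i with
  | nil => rfl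
  | cons a φ c r _ ihr =>
    cases i with
    | zero => rfl
    | succ i => exact ihr i

theorem Frst.Over.get? {A : Type v} {S : Set A} {t : Frst A} (h : t.Over S) {i : ℕ}
    {x : A × Fml × Frst A} (hx : t.get? i = some x) : x.1 ∈ S ∧ x.2.2.Over S := by
  induction t generalizing i with
  | nil => cases hx
  | cons a φ c r _ ihr =>
    cases i with
    | zero =>
      cases hx
      exact ⟨h.1, h.2.1⟩
    | succ i => exact ihr h.2.2 hx

theorem Proper.get? {b : Ordinal.{u}} {t : Frst Ordinal.{u}} (h : Proper b t) {i : ℕ}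
    {x : Ordinal.{u} × Fml × Frst Ordinal.{u}} (hx : t.get? i = some x) :
    x.1 < b ∧ Proper x.1 x.2.2 := by
  induction t generalizing i with
  | nil => cases hx
  | cons a φ c r _ ihr =>
    cases i with
    | zero =>
      cases hx
      exact ⟨h.1, h.2.1⟩
    | succ i => exact ihr h.2.2 hx

theorem tr_mem_get {θ : Ordinal.{u}} {i j : ℕ} {t : Frst Ordinal.{u}} :
    Tr θ (.mem i j) t ↔ Proper θ t ∧ ∃ x y, t.get? i = some x ∧ t.get? j = some y ∧
      Tr θ (.mem 0 1) (.cons x.1 x.2.1 x.2.2 (.cons y.1 y.2.1 y.2.2 .nil)) := by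
  constructor
  · rintro ⟨h, x', y', hx, hy, hxy⟩
    rw [vals_get?, Option.map_eq_some_iff] at hx hy
    obtain ⟨x, hx, rfl⟩ := hx
    obtain ⟨y, hy, rfl⟩ := hy
    have h1 := h.get? hx
    have h2 := h.get? hy
    exact ⟨h, x, y, hx, hy, tr_mem_iff.2 ⟨h1.1, h1.2, h2.1, h2.2, hxy⟩⟩
  · rintro ⟨h, x, y, hx, hy, hxy⟩
    refine ⟨h, _, _, ?_, ?_, (tr_mem_iff.1 hxy).2.2.2.2⟩
    · rw [vals_get?, hx]
      rfl
    · rw [vals_get?, hy]
      rfl

theorem tr_eq_get {θ : Ordinal.{u}} {i j : ℕ} {t : Frst Ordinal.{u}} :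
    Tr θ (.eq i j) t ↔ Proper θ t ∧ ∃ x y, t.get? i = some x ∧ t.get? j = some y ∧
      Tr θ (.eq 0 1) (.cons x.1 x.2.1 x.2.2 (.cons y.1 y.2.1 y.2.2 .nil)) := by
  constructor
  · rintro ⟨h, x', hx, hy⟩
    rw [vals_get?, Option.map_eq_some_iff] at hx hy
    obtain ⟨x, hx, rfl⟩ := hx
    obtain ⟨y, hy, hxy⟩ := hy
    have h1 := h.get? hx
    have h2 := h.get? hy
    exact ⟨h, x, y, hx, hy, tr_eq_iff.2 ⟨h1.1, h1.2, h2.1, h2.2, hxy.symm⟩⟩
  · rintro ⟨h, x, y, hx, hy, hxy⟩
    refine ⟨h, nmval x.1 x.2.1 (vals x.2.2), ?_, ?_⟩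
    · rw [vals_get?, hx]
      rfl
    · rw [vals_get?, hy, (tr_eq_iff.1 hxy).2.2.2.2]
      rfl

variable {V : Type u} {g : Set (Fact V)} (h : Cons g)

/-- The membership transfer. -/
theorem mem_iff_of {θ : Tm V} (hP : ∀ θ', rk h θ' < rk h θ → PTr h θ') {x : Tm V} {ψx : Fml}
    {cx : Frst (Tm V)} {y : Tm V} {ψy : Fml} {cy : Frst (Tm V)} (hx : rk h x < rk h θ)
    (hy : rk h y < rk h θ) (pcx : Proper (rk h x) (cx.map (rk h)))
    (pcy : Proper (rk h y) (cy.map (rk h))) :
    Fact.tr θ (.mem 0 1) (.cons x ψx cx (.cons y ψy cy .nil)) ∈ g ↔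
      nmval (rk h x) ψx (vals (cx.map (rk h))) ∈ nmval (rk h y) ψy (vals (cy.map (rk h))) := by
  have hPy := hP y hy
  constructor
  · intro hm
    obtain ⟨W, e, hW, hWl, he⟩ := exists_over h [θ, x, y] [cx, cy]
    simp only [List.mem_cons, List.not_mem_nil, or_false, forall_eq_or_imp, forall_eq] at hW hWl
    obtain ⟨oθ, ox, oy⟩ := hW
    obtain ⟨ocx, ocy⟩ := hWl
    have h1 := (he.tr_iff oθ (t := .cons x ψx cx (.cons y ψy cy .nil))
      ⟨ox, ocx, oy, ocy, trivial⟩).1 hm
    obtain ⟨hxθ, pcx', hyθ, pcy', h1⟩ := tr_mem_iff.1 h1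
    obtain ⟨b2, χ2, d2, hb2, pd2, h3, h3'⟩ := exists_name_tr pcy' h1
    have h4 : Tr (ev e θ) (.eq 0 1) (.cons b2 χ2 d2 ((Frst.cons x ψx cx .nil).map (ev e))) := by
      rw [Frst.map_cons, Frst.map_nil, tr_eq_iff]
      exact ⟨hb2.trans hyθ, pd2, hxθ, pcx', h3⟩
    obtain ⟨w, c, ow, oc, hw, pc, h5⟩ := exists_term_wit e oθ oy
      (t := .cons x ψx cx .nil) ⟨ox, ocx, trivial⟩ hb2 pd2 h4
    have h6 : Fact.tr θ (.eq 0 1) (.cons w χ2 c (.cons x ψx cx .nil)) ∈ g :=
      (he.tr_iff oθ (t := .cons w χ2 c (.cons x ψx cx .nil)) ⟨ow, oc, ox, ocx, trivial⟩).2 h5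
    have hw' : rk h w < rk h y := (he.rk_lt_iff h ow oy).2 hw
    have pc' : Proper (rk h w) (c.map (rk h)) := (he.proper_iff h ow oc).2 pc
    rw [← (pEq_of h hP _ w χ2 c x ψx cx le_rfl (hw'.trans hy) hx pc' pcx).1 h6]
    have h8 : Tr (ev e y) ψy ((Frst.cons w χ2 c cy).map (ev e)) := by
      rw [Frst.map_cons, tr_cons_iff]
      refine ⟨hw, pc, pcy', ?_⟩
      rw [Frst.map_cons, Frst.map_cons, Frst.map_nil, tr_eq_iff] at h5
      rw [h5.2.2.2.2]
      exact h1
    have h9 := (hPy _ _).1 ((he.tr_iff oy (t := .cons w χ2 c cy) ⟨ow, oc, ocy⟩).2 h8)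
    rw [Frst.map_cons, tr_cons_iff] at h9
    exact h9.2.2.2
  · intro hm
    obtain ⟨b2, χ2, d2, hb2, pd2, h11, h12⟩ := exists_name_tr pcy hm
    obtain ⟨w, dw, rfl, rfl⟩ := lift_name h hb2 pd2
    have h13 : Fact.tr y ψy (.cons w χ2 dw cy) ∈ g := (hPy _ _).2 h12
    have h14 : Fact.tr θ (.eq 0 1) (.cons w χ2 dw (.cons x ψx cx .nil)) ∈ g :=
      (pEq_of h hP _ w χ2 dw x ψx cx le_rfl (hb2.trans hy) hx pd2 pcx).2 h11
    obtain ⟨W', e', hW, hWl, he'⟩ := exists_over h [θ, x, y, w] [cx, cy, dw]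
    simp only [List.mem_cons, List.not_mem_nil, or_false, forall_eq_or_imp, forall_eq] at hW hWl
    obtain ⟨oθ', ox', oy', ow'⟩ := hW
    obtain ⟨ocx', ocy', odw'⟩ := hWl
    have h15 := tr_eq_iff.1 ((he'.tr_iff oθ' (t := .cons w χ2 dw (.cons x ψx cx .nil))
      ⟨ow', odw', ox', ocx', trivial⟩).1 h14)
    have h16 := tr_cons_iff.1 ((he'.tr_iff oy' (t := .cons w χ2 dw cy) ⟨ow', odw', ocy'⟩).1 h13)
    refine (he'.tr_iff oθ' (t := .cons x ψx cx (.cons y ψy cy .nil))
      ⟨ox', ocx', oy', ocy', trivial⟩).2 ?_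
    rw [Frst.map_cons, Frst.map_cons, Frst.map_nil, tr_mem_iff]
    refine ⟨h15.2.2.1, h15.2.2.2.1, (he'.rk_lt_iff h oy' oθ').1 hy, h16.2.2.1, ?_⟩
    rw [← h15.2.2.2.2]
    exact h16.2.2.2

/-- The truth transfer. -/
theorem pTr (θ : Tm V) : PTr h θ := by
  generalize hr : rk h θ = ρ
  induction ρ using WellFoundedLT.induction generalizing θ with
  | ind ρ ih =>
    subst hr
    have hP : ∀ θ', rk h θ' < rk h θ → PTr h θ' := fun θ' h' => ih _ h' θ' rfl
    clear ih
    intro φ
    induction φ with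
    | mem i j =>
      intro t
      obtain ⟨W, e, hW, hWl, he⟩ := exists_over h [θ] [t]
      simp only [List.mem_cons, List.not_mem_nil, or_false, forall_eq] at hW hWl
      rw [he.tr_iff hW hWl, tr_mem_get, tr_mem_get, ← he.proper_iff h hW hWl]
      refine and_congr_right fun hp => ?_
      constructor
      · rintro ⟨x', y', hx', hy', h1⟩
        rw [Frst.map_get?, Option.map_eq_some_iff] at hx' hy'
        obtain ⟨x, hx, rfl⟩ := hx'
        obtain ⟨y, hy, rfl⟩ := hy'
        have hxr : (t.map (rk h)).get? i = some (rk h x.1, x.2.1, x.2.2.map (rk h)) := by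
          rw [Frst.map_get?, hx]
          rfl
        have hyr : (t.map (rk h)).get? j = some (rk h y.1, y.2.1, y.2.2.map (rk h)) := by
          rw [Frst.map_get?, hy]
          rfl
        refine ⟨_, _, hxr, hyr, ?_⟩
        have px := hp.get? hxr
        have py := hp.get? hyr
        have ox := hWl.get? hx
        have oy := hWl.get? hy
        rw [tr_mem_iff]
        refine ⟨px.1, px.2, py.1, py.2, ?_⟩
        refine (mem_iff_of h hP px.1 py.1 px.2 py.2).1 ?_
        exact (he.tr_iff hW (t := .cons x.1 x.2.1 x.2.2 (.cons y.1 y.2.1 y.2.2 .nil))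
          ⟨ox.1, ox.2, oy.1, oy.2, trivial⟩).2 h1
      · rintro ⟨x', y', hxr, hyr, h1⟩
        have hx' := hxr
        have hy' := hyr
        rw [Frst.map_get?, Option.map_eq_some_iff] at hx' hy'
        obtain ⟨x, hx, rfl⟩ := hx'
        obtain ⟨y, hy, rfl⟩ := hy'
        refine ⟨(ev e x.1, x.2.1, x.2.2.map (ev e)), (ev e y.1, y.2.1, y.2.2.map (ev e)),
          by rw [Frst.map_get?, hx]; rfl, by rw [Frst.map_get?, hy]; rfl, ?_⟩
        have px := hp.get? hxr
        have py := hp.get? hyr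
        have ox := hWl.get? hx
        have oy := hWl.get? hy
        refine (he.tr_iff hW (t := .cons x.1 x.2.1 x.2.2 (.cons y.1 y.2.1 y.2.2 .nil))
          ⟨ox.1, ox.2, oy.1, oy.2, trivial⟩).1 ?_
        exact (mem_iff_of h hP px.1 py.1 px.2 py.2).2 (tr_mem_iff.1 h1).2.2.2.2
    | eq i j =>
      intro t
      obtain ⟨W, e, hW, hWl, he⟩ := exists_over h [θ] [t]
      simp only [List.mem_cons, List.not_mem_nil, or_false, forall_eq] at hW hWl
      rw [he.tr_iff hW hWl, tr_eq_get, tr_eq_get, ← he.proper_iff h hW hWl]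
      refine and_congr_right fun hp => ?_
      constructor
      · rintro ⟨x', y', hx', hy', h1⟩
        rw [Frst.map_get?, Option.map_eq_some_iff] at hx' hy'
        obtain ⟨x, hx, rfl⟩ := hx'
        obtain ⟨y, hy, rfl⟩ := hy'
        have hxr : (t.map (rk h)).get? i = some (rk h x.1, x.2.1, x.2.2.map (rk h)) := by
          rw [Frst.map_get?, hx]
          rfl
        have hyr : (t.map (rk h)).get? j = some (rk h y.1, y.2.1, y.2.2.map (rk h)) := by
          rw [Frst.map_get?, hy]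
          rfl
        refine ⟨_, _, hxr, hyr, ?_⟩
        have px := hp.get? hxr
        have py := hp.get? hyr
        have ox := hWl.get? hx
        have oy := hWl.get? hy
        rw [tr_eq_iff]
        refine ⟨px.1, px.2, py.1, py.2, ?_⟩
        refine (pEq_of h hP _ x.1 x.2.1 x.2.2 y.1 y.2.1 y.2.2 le_rfl px.1 py.1 px.2 py.2).1 ?_
        exact (he.tr_iff hW (t := .cons x.1 x.2.1 x.2.2 (.cons y.1 y.2.1 y.2.2 .nil))
          ⟨ox.1, ox.2, oy.1, oy.2, trivial⟩).2 h1
      · rintro ⟨x', y', hxr, hyr, h1⟩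
        have hx' := hxr
        have hy' := hyr
        rw [Frst.map_get?, Option.map_eq_some_iff] at hx' hy'
        obtain ⟨x, hx, rfl⟩ := hx'
        obtain ⟨y, hy, rfl⟩ := hy'
        refine ⟨(ev e x.1, x.2.1, x.2.2.map (ev e)), (ev e y.1, y.2.1, y.2.2.map (ev e)),
          by rw [Frst.map_get?, hx]; rfl, by rw [Frst.map_get?, hy]; rfl, ?_⟩
        have px := hp.get? hxr
        have py := hp.get? hyr
        have ox := hWl.get? hx
        have oy := hWl.get? hy
        refine (he.tr_iff hW (t := .cons x.1 x.2.1 x.2.2 (.cons y.1 y.2.1 y.2.2 .nil))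
          ⟨ox.1, ox.2, oy.1, oy.2, trivial⟩).1 ?_
        exact (pEq_of h hP _ x.1 x.2.1 x.2.2 y.1 y.2.1 y.2.2 le_rfl px.1 py.1 px.2 py.2).2
          (tr_eq_iff.1 h1).2.2.2.2
    | neg φ ihφ =>
      intro t
      obtain ⟨W, e, hW, hWl, he⟩ := exists_over h [θ] [t]
      simp only [List.mem_cons, List.not_mem_nil, or_false, forall_eq] at hW hWl
      have h1 := he.tr_iff (φ := φ) hW hWl
      rw [he.tr_iff hW hWl]
      rw [ihφ t] at h1
      have h2 := he.proper_iff h hW hWl
      simp only [Tr, Fml.Sat] at h1 ⊢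
      rw [← h2] at h1 ⊢
      tauto
    | and φ ψ ihφ ihψ =>
      intro t
      obtain ⟨W, e, hW, hWl, he⟩ := exists_over h [θ] [t]
      simp only [List.mem_cons, List.not_mem_nil, or_false, forall_eq] at hW hWl
      have h1 := he.tr_iff (φ := φ) hW hWl
      have h1' := he.tr_iff (φ := ψ) hW hWl
      rw [he.tr_iff hW hWl]
      rw [ihφ t] at h1
      rw [ihψ t] at h1'
      have h2 := he.proper_iff h hW hWl
      simp only [Tr, Fml.Sat] at h1 h1' ⊢
      rw [← h2] at h1 h1' ⊢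
      tauto
    | ex φ ihφ =>
      intro t
      constructor
      · intro hm
        obtain ⟨W, e, hW, hWl, he⟩ := exists_over h [θ] [t]
        simp only [List.mem_cons, List.not_mem_nil, or_false, forall_eq] at hW hWl
        obtain ⟨hp, a, ha, hs⟩ := (he.tr_iff hW hWl).1 hm
        obtain ⟨b, χ, d, hb, pd, rfl⟩ := exists_name ha
        obtain ⟨w, c, ow, oc, hw, pc, h5⟩ := exists_term_wit e hW hW (φ := φ) hWl hb pd
          ⟨⟨hb, pd, hp⟩, hs⟩
        have h6 := (ihφ _).1 ((he.tr_iff hW (t := .cons w χ c t) ⟨ow, oc, hWl⟩).2 h5)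
        obtain ⟨⟨h7, h8, h9⟩, h10⟩ := h6
        exact ⟨h9, _, nmval_mem h7 h8.vals_mem, h10⟩
      · rintro ⟨hp, a, ha, hs⟩
        obtain ⟨b, χ, d, hb, pd, rfl⟩ := exists_name ha
        obtain ⟨w, dw, rfl, rfl⟩ := lift_name h hb pd
        have h1 : Fact.tr θ φ (.cons w χ dw t) ∈ g := (ihφ _).2 ⟨⟨hb, pd, hp⟩, hs⟩
        obtain ⟨W, e, hW, hWl, he⟩ := exists_over h [θ, w] [t, dw]
        simp only [List.mem_cons, List.not_mem_nil, or_false, forall_eq_or_imp, forall_eq]
          at hW hWl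
        obtain ⟨oθ, ow⟩ := hW
        obtain ⟨ot, odw⟩ := hWl
        obtain ⟨⟨h7, h8, h9⟩, h10⟩ := (he.tr_iff oθ (t := .cons w χ dw t) ⟨ow, odw, ot⟩).1 h1
        exact (he.tr_iff oθ ot).2 ⟨h9, _, nmval_mem h7 h8.vals_mem, h10⟩

/-! ## The collapse commutes with the function symbols -/

theorem rk_func {n : ℕ} (f : FSym n) (ts : Fin n → Tm V) :
    rk h (.func (show hullL.Functions n from f) ts) = fval f (fun i => rk h (ts i)) := by
  obtain ⟨k, σ, φ, τ, th, be, j⟩ := f
  -- the terms for the components of the least witness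
  let s : Fin k → Tm V := fun i =>
    .func (show hullL.Functions n from (⟨k, σ, φ, τ, th, be, i⟩ : FSym n)) ts
  have hs_ev : ∀ (e : V → Ordinal.{u}) (a : Fin k → Ordinal.{u}),
      IsLeastWit (ev e (ts th)) (ev e (ts be)) φ ((τ.map ts).map (ev e)) σ a →
      (fun i => ev e (s i)) = a := by
    intro e a ha
    funext i
    have h1 : ev e (s i) = fval (⟨k, σ, φ, τ, th, be, i⟩ : FSym n) (fun i => ev e (ts i)) := rfl
    rw [h1]
    refine fval_eq (⟨k, σ, φ, τ, th, be, i⟩ : FSym n) (fun i => ev e (ts i)) (a := a) ?_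
    rw [Frst.map_map] at ha
    exact ha
  have hV : ∀ W : Set V, (∀ i, VIn W (ts i)) → ∀ i, VIn W (s i) := fun W hW i => hW
  -- description of witnesses by facts
  have hwit : ∀ (W : Set V) (e : V → Ordinal.{u}), Good g W e → (∀ i, VIn W (ts i)) →
      ∀ u : Fin k → Tm V, (∀ i, VIn W (u i)) →
      (IsWit (ev e (ts th)) (ev e (ts be)) φ ((τ.map ts).map (ev e)) σ (fun i => ev e (u i)) ↔
        IsWit (rk h (ts th)) (rk h (ts be)) φ ((τ.map ts).map (rk h)) σ
          (fun i => rk h (u i))) := by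
    intro W e he hts u hu
    have o1 : (σ.map u).Over {s | VIn W s} := by
      rw [Frst.over_map]
      exact Frst.Over.mono (S := univ) (fun j _ => hu j) (Frst.over_univ _)
    have o2 : (τ.map ts).Over {s | VIn W s} := by
      rw [Frst.over_map]
      exact Frst.Over.mono (S := univ) (fun j _ => hts j) (Frst.over_univ _)
    have o3 : ((σ.map u).app (τ.map ts)).Over {s | VIn W s} := Frst.over_app.2 ⟨o1, o2⟩
    unfold IsWit
    refine and_congr (forall_congr' fun i => (he.rk_lt_iff h (hu i) (hts be)).symm) ?_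
    rw [← Frst.map_map u (ev e), ← Frst.map_map u (rk h), ← Frst.map_app, ← Frst.map_app]
    refine and_congr (he.proper_iff h (hts be) o1).symm ?_
    rw [← he.tr_iff (hts th) o3]
    exact pTr h (ts th) _ _
  have hex : ∀ W : Set V, ∀ u : Fin k → Tm V, ∃ (W' : Set V) (e : V → Ordinal.{u}),
      (∀ i, VIn W' (ts i)) ∧ (∀ i, VIn W' (u i)) ∧ Good g W' e := by
    intro W u
    obtain ⟨W', e, h1, h2⟩ := h.exists_good (S := range ts ∪ range u)
      ((countable_range ts).union (countable_range u))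
    exact ⟨W', e, fun i => h1 _ (Or.inl (mem_range_self i)),
      fun i => h1 _ (Or.inr (mem_range_self i)), h2⟩
  -- lexicographic comparison
  have hlex : ∀ (W : Set V) (e : V → Ordinal.{u}), Good g W e → ∀ u u' : Fin k → Tm V,
      (∀ i, VIn W (u i)) → (∀ i, VIn W (u' i)) →
      (LexLT (fun i => ev e (u i)) (fun i => ev e (u' i)) ↔
        LexLT (fun i => rk h (u i)) (fun i => rk h (u' i))) := by
    intro W e he u u' hu hu'
    rw [lexLT_iff, lexLT_iff]
    refine exists_congr fun i => and_congr ?_ (he.rk_lt_iff h (hu i) (hu' i)).symm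
    exact forall_congr' fun j => forall_congr' fun _ => (he.rk_eq_iff h (hu j) (hu' j)).symm
  -- any witness for `rk h` comes from terms
  have hlift : ∀ b : Fin k → Ordinal.{u},
      IsWit (rk h (ts th)) (rk h (ts be)) φ ((τ.map ts).map (rk h)) σ b →
      ∃ u : Fin k → Tm V, (fun i => rk h (u i)) = b := by
    intro b hb
    choose u hu using fun i => exists_rk_eq h (hb.1 i).le
    exact ⟨u, funext hu⟩
  by_cases hw : ∃ b, IsWit (rk h (ts th)) (rk h (ts be)) φ ((τ.map ts).map (rk h)) σ b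
  · obtain ⟨b, hb⟩ := hw
    obtain ⟨u, rfl⟩ := hlift b hb
    have key : IsLeastWit (rk h (ts th)) (rk h (ts be)) φ ((τ.map ts).map (rk h)) σ
        (fun i => rk h (s i)) := by
      constructor
      · obtain ⟨W, e, h1, h2, he⟩ := hex ∅ u
        obtain ⟨a, ha⟩ := exists_isLeastWit ⟨_, (hwit W e he h1 u h2).2 hb⟩
        have h3 := hs_ev e a ha
        subst h3
        exact (hwit W e he h1 s (hV W h1)).1 ha.1
      · intro b' hb' hlt
        obtain ⟨u', rfl⟩ := hlift b' hb'
        obtain ⟨W, e, h1, h2, he⟩ := hex ∅ u'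
        have h4 := (hwit W e he h1 u' h2).2 hb'
        obtain ⟨a, ha⟩ := exists_isLeastWit ⟨_, h4⟩
        have h3 := hs_ev e a ha
        subst h3
        exact ha.2 _ h4 ((hlex W e he u' s h2 (hV W h1)).2 hlt)
    rw [Frst.map_map] at key
    exact (fval_eq (⟨k, σ, φ, τ, th, be, j⟩ : FSym n) (fun i => rk h (ts i)) key).symm
  · have h1 : fval (⟨k, σ, φ, τ, th, be, j⟩ : FSym n) (fun i => rk h (ts i)) = rk h (ts th) := by
      refine fval_eq_of_not _ _ ?_
      rw [Frst.map_map] at hw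
      exact hw
    rw [h1]
    obtain ⟨W, e, h2, -, he⟩ := hex ∅ (fun _ => ts th)
    have h3 : ¬ ∃ a, IsWit (ev e (ts th)) (ev e (ts be)) φ ((τ.map ts).map (ev e)) σ a := by
      intro hc
      obtain ⟨a, ha⟩ := exists_isLeastWit hc
      have h3 := hs_ev e a ha
      subst h3
      exact hw ⟨_, (hwit W e he h2 s (hV W h2)).1 ha.1⟩
    have h4 : ev e (s j) = ev e (ts th) := by
      have h5 : ev e (s j) = fval (⟨k, σ, φ, τ, th, be, j⟩ : FSym n) (fun i => ev e (ts i)) :=
        rfl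
      rw [h5]
      refine fval_eq_of_not _ _ ?_
      rw [Frst.map_map] at h3
      exact h3
    exact (he.rk_eq_iff h (hV W h2 j) (h2 th)).2 h4

theorem ev_rk (s : Tm V) : ev (fun v => rk h (.var v)) s = rk h s := by
  induction s with
  | var v => rfl
  | func f ts ih =>
    rw [show rk h (.func f ts) = fval f (fun i => rk h (ts i)) from rk_func h f ts]
    have h1 : ev (fun v => rk h (.var v)) (.func f ts) =
        fval f (fun i => ev (fun v => rk h (.var v)) (ts i)) := rfl
    rw [h1]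
    congr 1
    funext i
    exact ih i

/-- Realization: a countably consistent diagram is the diagram of an assignment whose hull is an
initial segment of the ordinals. -/
theorem realization (g : Set (Fact V)) (h : Cons g) :
    ∃ e : V → Ordinal.{u}, (∀ f, f ∈ g ↔ Holds e f) ∧
      (∀ s : Tm V, ∀ o < ev e s, ∃ t : Tm V, ev e t = o) := by
  refine ⟨fun v => rk h (.var v), ?_, ?_⟩
  · intro f
    cases f with
    | lt s t =>
      simp only [Holds, ev_rk]
      exact (rk_lt_iff h).symm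
    | tr θ φ t =>
      have : (ev (fun v => rk h (.var v)) : Tm V → Ordinal.{u}) = rk h := funext (ev_rk h)
      simp only [Holds, this, ev_rk]
      exact pTr h θ φ t
  · intro s o ho
    rw [ev_rk] at ho
    obtain ⟨t, ht⟩ := exists_rk_eq h ho.le
    exact ⟨t, by rw [ev_rk, ht]⟩

end Pool.Agent.Helper43.KK
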