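import Pool.Agent.Lib.Helper43.KK.Otp

/-!
# Hulls and the sets `X e`
-/

set_option autoImplicit false

universe u v w

namespace Pool.Agent.Helper43.KK

open Set Ordinal Cardinal

variable {κ : Cardinal.{u}}

/-! ## Indices and ordinals -/

/-- The ordinal corresponding to an index. -/
noncomputable def num (ξ : Idx κ) : Ordinal.{u} := (Ordinal.ToType.toOrd ξ : Ordinal.{u})

/-- The index corresponding to an ordinal. -/
noncomputable def idx (x : Ordinal.{u}) (h : x < κ.ord) : Idx κ := Ordinal.ToType.mk ⟨x, h⟩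

@[simp] theorem num_idx (x : Ordinal.{u}) (h : x < κ.ord) : num (idx x h) = x := by
  simp [num, idx, Ordinal.ToType.toOrd]

theorem num_lt (ξ : Idx κ) : num ξ < κ.ord := (Ordinal.ToType.toOrd ξ).2

@[simp] theorem num_lt_num {ξ η : Idx κ} : num ξ < num η ↔ ξ < η := by
  simp [num, Ordinal.ToType.toOrd]

@[simp] theorem num_le_num {ξ η : Idx κ} : num ξ ≤ num η ↔ ξ ≤ η := by
  simp [num, Ordinal.ToType.toOrd]

@[simp] theorem num_inj {ξ η : Idx κ} : num ξ = num η ↔ ξ = η := by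
  rw [le_antisymm_iff, le_antisymm_iff, num_le_num, num_le_num]

theorem exists_num {x : Ordinal.{u}} (h : x < κ.ord) : ∃ ξ : Idx κ, num ξ = x := ⟨idx x h, by simp⟩

/-- The cardinality of an initial segment. -/
theorem card_num_lt (δ : Ordinal.{u}) : #{ξ : Idx κ | num ξ < δ} ≤ δ.card := by
  have hinj : Function.Injective (fun ξ : {ξ : Idx κ | num ξ < δ} =>
      (Ordinal.ToType.mk ⟨num ξ.1, ξ.2⟩ : δ.ToType)) := by
    intro a b hab
    have := congrArg Subtype.val (Ordinal.ToType.mk.injective hab)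
    exact Subtype.ext (num_inj.1 this)
  have := Cardinal.mk_le_of_injective hinj
  simpa using this

/-! ## Hulls -/

/-- The variables: indices below `κ`, and `m + 1` further constants. -/
abbrev Vr (κ : Cardinal.{u}) (m : ℕ) : Type u := Idx κ ⊕ Fin (m + 1)

/-- The variables of index below `δ`, and the further constants. -/
def below {m : ℕ} (δ : Ordinal.{u}) : Set (Vr κ m) := {v | ∀ ξ, v = .inl ξ → num ξ < δ}

variable {m : ℕ}

theorem inl_mem_below {δ : Ordinal.{u}} {ξ : Idx κ} :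
    (Sum.inl ξ : Vr κ m) ∈ below δ ↔ num ξ < δ := by
  simp [below]

theorem inr_mem_below {δ : Ordinal.{u}} {i : Fin (m + 1)} :
    (Sum.inr i : Vr κ m) ∈ below δ := by
  simp [below]

theorem below_mono {δ δ' : Ordinal.{u}} (h : δ ≤ δ') : (below δ : Set (Vr κ m)) ⊆ below δ' :=
  fun _ hv ξ hξ => (hv ξ hξ).trans_le h

/-- The hull of the first `δ` indices and the constants. -/
def hull (e : Vr κ m → Ordinal.{u}) (δ : Ordinal.{u}) : Set Ordinal.{u} :=
  {o | ∃ s : Tm (Vr κ m), VIn (below δ) s ∧ ev e s = o}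

theorem hull_eq_range (e : Vr κ m → Ordinal.{u}) (δ : Ordinal.{u}) :
    hull e δ = range (fun s : {s : Tm (Vr κ m) // VIn (below δ) s} => ev e s.1) := by
  ext o
  simp [hull]

theorem bddAbove_hull (e : Vr κ m → Ordinal.{u}) (δ : Ordinal.{u}) : BddAbove (hull e δ) := by
  rw [hull_eq_range]
  exact bddAbove_range' _

theorem hull_mono (e : Vr κ m → Ordinal.{u}) {δ δ' : Ordinal.{u}} (h : δ ≤ δ') :
    hull e δ ⊆ hull e δ' := fun _ ⟨s, hs, ho⟩ => ⟨s, hs.mono (below_mono h), ho⟩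

theorem mem_hull_of_var {e : Vr κ m → Ordinal.{u}} {δ : Ordinal.{u}} {v : Vr κ m}
    (hv : v ∈ below δ) : e v ∈ hull e δ := ⟨.var v, hv, rfl⟩

/-- Closure under the function symbols. -/
def ClosedF (S : Set Ordinal.{u}) : Prop :=
  ∀ (n : ℕ) (f : FSym n) (v : Fin n → Ordinal.{u}), (∀ i, v i ∈ S) → fval f v ∈ S

theorem closedF_hull (e : Vr κ m → Ordinal.{u}) (δ : Ordinal.{u}) : ClosedF (hull e δ) := by
  intro n f v hv
  choose s hs1 hs2 using hv
  refine ⟨.func (show hullL.Functions n from f) s, hs1, ?_⟩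
  have : ev e (.func (show hullL.Functions n from f) s) = fval f (fun i => ev e (s i)) := rfl
  rw [this, funext hs2]

theorem hull_subset {e : Vr κ m → Ordinal.{u}} {δ : Ordinal.{u}} {S : Set Ordinal.{u}}
    (hS : ClosedF S) (h : ∀ v ∈ below δ, e v ∈ S) : hull e δ ⊆ S := by
  rintro o ⟨s, hs, rfl⟩
  induction s with
  | var v => exact h v hs
  | func f ts ih => exact hS _ f _ fun i => ih i (hs i)

/-- The order type of the hull. -/
noncomputable def rho (e : Vr κ m → Ordinal.{u}) (δ : Ordinal.{u}) : Ordinal.{u} :=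
  otp (hull e δ)

theorem card_vIn_le (W : Set (Vr κ m)) : #{s : Tm (Vr κ m) // VIn W s} ≤ max ℵ₀ #W := by
  have h1 : ∀ s : {s : Tm (Vr κ m) // VIn W s},
      ∃ t : hullL.Term W, t.relabel (Subtype.val : W → Vr κ m) = s.1 := by
    rintro ⟨s, hs⟩
    induction s with
    | var v => exact ⟨.var ⟨v, hs⟩, rfl⟩
    | func f ts ih =>
      choose ss hss using fun i => ih i (hs i)
      exact ⟨.func f ss, by simp [FirstOrder.Language.Term.relabel, hss]⟩
  choose F hF using h1
  have hinj : Function.Injective F := by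
    intro a b hab
    apply Subtype.ext
    rw [← hF a, ← hF b, hab]
  refine (Cardinal.mk_le_of_injective hinj).trans ?_
  refine FirstOrder.Language.Term.card_le.trans ?_
  refine max_le (le_max_left _ _) ?_
  rw [Cardinal.mk_sum, Cardinal.lift_uzero]
  refine (Cardinal.add_le_max _ _).trans ?_
  have h2 : #(Σ n, hullL.Functions n) ≤ ℵ₀ := Cardinal.mk_le_aleph0
  have h3 : Cardinal.lift.{u} #(Σ n, hullL.Functions n) ≤ ℵ₀ := by
    exact (Cardinal.lift_le.2 h2).trans Cardinal.lift_aleph0.le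
  exact max_le (max_le (le_max_right _ _) (h3.trans (le_max_left _ _))) (le_max_left _ _)

theorem card_below_le (δ : Ordinal.{u}) :
    #(below δ : Set (Vr κ m)) ≤ max ℵ₀ δ.card := by
  have h1 : (below δ : Set (Vr κ m)) ⊆ Sum.inl '' {ξ : Idx κ | num ξ < δ} ∪ range Sum.inr := by
    rintro (ξ | i) hv
    · exact Or.inl ⟨ξ, hv ξ rfl, rfl⟩
    · exact Or.inr ⟨i, rfl⟩
  refine (Cardinal.mk_le_mk_of_subset h1).trans ((Cardinal.mk_union_le _ _).trans ?_)
  refine (Cardinal.add_le_max _ _).trans ?_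
  refine max_le (max_le ?_ ?_) (le_max_left _ _)
  · exact (Cardinal.mk_image_le.trans (card_num_lt δ)).trans (le_max_right _ _)
  · refine le_trans ?_ (le_max_left _ _)
    have : (range (Sum.inr : Fin (m + 1) → Vr κ m)).Finite := finite_range _
    exact (this.lt_aleph0).le

theorem card_rho_le (e : Vr κ m → Ordinal.{u}) (δ : Ordinal.{u}) :
    (rho e δ).card ≤ max ℵ₀ δ.card := by
  rw [rho, hull_eq_range]
  refine (card_otp_le _).trans ((card_vIn_le _).trans ?_)
  exact max_le (le_max_left _ _) (card_below_le δ)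

/-- Increasing assignments. -/
def Incr (e : Vr κ m → Ordinal.{u}) : Prop :=
  (∀ ξ η : Idx κ, ξ < η → e (.inl ξ) < e (.inl η)) ∧ ∀ ξ : Idx κ, e (.inl ξ) < e (.inr 0)

theorem le_rho {e : Vr κ m → Ordinal.{u}} (he : Incr e) {δ : Ordinal.{u}} (hδ : δ ≤ κ.ord) :
    δ ≤ rho e δ := by
  classical
  refine le_otp (bddAbove_hull e δ)
    (fun x => if hx : x < κ.ord then e (.inl (idx x hx)) else 0) ?_ ?_
  · intro x hx y hy hxy
    rw [dif_pos (hx.trans_le hδ), dif_pos (hy.trans_le hδ)]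
    apply he.1
    rw [← num_lt_num, num_idx, num_idx]
    exact hxy
  · intro x hx
    rw [dif_pos (hx.trans_le hδ)]
    apply mem_hull_of_var
    rw [inl_mem_below, num_idx]
    exact hx

/-- The closure points. -/
def CC (e : Vr κ m → Ordinal.{u}) : Set Ordinal.{u} :=
  {δ | δ < κ.ord ∧ δ.card.ord = δ ∧ ℵ₀ ≤ δ.card ∧
    ∀ o ∈ hull e δ, o < e (.inr 0) → ∃ ξ : Idx κ, num ξ < δ ∧ e (.inl ξ) = o}

/-- The element of `P(κ)` given by an assignment. -/
def XX (e : Vr κ m → Ordinal.{u}) : Set (Idx κ) := {ξ | ∃ δ ∈ CC e, rho e δ = num ξ}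

theorem rho_mono (e : Vr κ m → Ordinal.{u}) {δ δ' : Ordinal.{u}} (h : δ ≤ δ') :
    rho e δ ≤ rho e δ' := otp_mono (bddAbove_hull e δ') (hull_mono e h)

theorem rho_lt_of_lt {e : Vr κ m → Ordinal.{u}} (he : Incr e) {δ δ' : Ordinal.{u}}
    (h : δ ∈ CC e) (h' : δ' ∈ CC e) (hlt : δ < δ') : rho e δ < rho e δ' := by
  refine lt_of_lt_of_le ?_ (le_rho he h'.1.le)
  rw [← h'.2.1, Cardinal.lt_ord]
  refine (card_rho_le e δ).trans_lt ?_
  rw [max_eq_right h.2.2.1]
  rw [← h'.2.1, Cardinal.lt_ord] at hlt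
  exact hlt

theorem rho_lt_ord {e : Vr κ m → Ordinal.{u}} {δ : Ordinal.{u}} (h : δ ∈ CC e) :
    rho e δ < κ.ord := by
  rw [Cardinal.lt_ord]
  refine (card_rho_le e δ).trans_lt ?_
  rw [max_eq_right h.2.2.1, ← Cardinal.lt_ord]
  exact h.1

/-! ## Locality of variables -/

theorem exists_vIn_of_directed {D : Set Ordinal.{u}} (hD : D.Nonempty) {s : Tm (Vr κ m)}
    (h : VIn {v | ∃ δ ∈ D, v ∈ below δ} s) : ∃ δ ∈ D, VIn (below δ) s := by
  induction s with
  | var v => exact h
  | @func n f ts ih =>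
    choose d hd1 hd2 using fun i => ih i (h i)
    rcases isEmpty_or_nonempty (Fin n) with hn | hn
    · obtain ⟨δ, hδ⟩ := hD
      exact ⟨δ, hδ, fun i => hn.elim i⟩
    · obtain ⟨i, hi⟩ := Finite.exists_max d
      exact ⟨d i, hd1 i, fun j => (hd2 j).mono (below_mono (hi j))⟩

theorem exists_vIn_lt (hκ : ℵ₀ ≤ κ) (s : Tm (Vr κ m)) : ∃ δ < κ.ord, VIn (below δ) s := by
  refine exists_vIn_of_directed (D := Iio κ.ord) ?_ ?_
  · exact ⟨0, by
      rw [mem_Iio, Cardinal.lt_ord, Ordinal.card_zero]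
      exact Cardinal.aleph0_pos.trans_le hκ⟩
  · have : ∀ v : Vr κ m, ∃ δ ∈ Iio κ.ord, v ∈ below δ := by
      rintro (ξ | i)
      · refine ⟨Order.succ (num ξ), ?_, ?_⟩
        · exact (Cardinal.isSuccLimit_ord hκ).succ_lt (num_lt ξ)
        · rw [inl_mem_below]
          exact Order.lt_succ _
      · exact ⟨0, by
          rw [mem_Iio, Cardinal.lt_ord, Ordinal.card_zero]
          exact Cardinal.aleph0_pos.trans_le hκ, inr_mem_below⟩
    have h2 : {v : Vr κ m | ∃ δ ∈ Iio κ.ord, v ∈ below δ} = Set.univ := by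
      ext v
      simpa using this v
    rw [h2]
    induction s with
    | var v => trivial
    | func f ts ih => exact fun i => ih i

end Pool.Agent.Helper43.KK
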